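import Pool.Agent.H560R2.Av4

/-! A refined form of the approximation argument `H560R2.approx2`: the error on the positive side is
measured by the probability of large sets only, and the error on the negative side is arbitrarily
small. -/

namespace Pool.Agent.L5helper92.SE

open Finset Pool.Agent.H520R2 Pool.Agent.H560R2

set_option linter.unusedSectionVars false

variable {ι : Type*} [Fintype ι] [DecidableEq ι] {Q : ℕ} [NeZero Q]

lemma geom_sum_le (r m : ℕ) (hr : 2 ≤ r) : ∑ l ∈ Finset.range (m + 1), r ^ l ≤ 2 * r ^ m := by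
  induction m with
  | zero => simp
  | succ m ih =>
    rw [Finset.sum_range_succ]
    have h1 : 2 * r ^ m ≤ r ^ (m + 1) := by
      rw [pow_succ, mul_comm]
      exact Nat.mul_le_mul_left _ hr
    omega

/-- Counting positives that contain a minterm with size in `(e, m]`. -/
lemma count_big {Pt : Type*} [Fintype Pt] (gr : Pt → Finset ι) (r e m Kp : ℕ)
    (hr : 2 ≤ r)
    (hbig : ∀ Y : Finset ι, e < Y.card → {p : Pt | Y ⊆ gr p}.ncard * Kp ≤ Fintype.card Pt)
    (g : Finset ι → Prop) (hthin : ∀ l, e < l → l ≤ m → (Mint g l).card ≤ r ^ l) (E : Set Pt)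
    (hE : ∀ p ∈ E, ∃ Y, Y ⊆ gr p ∧ Y ∈ Mint g Y.card ∧ e < Y.card ∧ Y.card ≤ m) :
    E.ncard * Kp ≤ Fintype.card Pt * (2 * r ^ m) := by
  classical
  have hsub : E ⊆ ⋃ l ∈ Finset.Ioc e m, ⋃ Y ∈ Mint g l, {p : Pt | Y ⊆ gr p} := by
    intro p hp
    obtain ⟨Y, h1, h2, h3, h4⟩ := hE p hp
    simp only [Set.mem_iUnion]
    exact ⟨Y.card, Finset.mem_Ioc.mpr ⟨h3, h4⟩, Y, h2, h1⟩
  have h1 : E.ncard ≤ ∑ l ∈ Finset.Ioc e m, ∑ Y ∈ Mint g l, {p : Pt | Y ⊆ gr p}.ncard := by
    refine (Set.ncard_le_ncard hsub (Set.toFinite _)).trans ?_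
    refine (Finset.set_ncard_biUnion_le _ _).trans ?_
    apply Finset.sum_le_sum
    intro l _
    exact Finset.set_ncard_biUnion_le _ _
  have h2 : ∀ l ∈ Finset.Ioc e m, (∑ Y ∈ Mint g l, {p : Pt | Y ⊆ gr p}.ncard) * Kp ≤
      r ^ l * Fintype.card Pt := by
    intro l hl
    obtain ⟨hl1, hl2⟩ := Finset.mem_Ioc.mp hl
    rw [Finset.sum_mul]
    calc _ ≤ ∑ Y ∈ Mint g l, Fintype.card Pt := by
          apply Finset.sum_le_sum
          intro Y hY
          have hYl := ((mem_Mint g l Y).mp hY).1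
          exact hbig Y (by omega)
      _ = (Mint g l).card * Fintype.card Pt := by simp
      _ ≤ _ := Nat.mul_le_mul_right _ (hthin l hl1 hl2)
  calc E.ncard * Kp ≤ (∑ l ∈ Finset.Ioc e m, ∑ Y ∈ Mint g l, {p : Pt | Y ⊆ gr p}.ncard) * Kp :=
        Nat.mul_le_mul_right _ h1
    _ = ∑ l ∈ Finset.Ioc e m, (∑ Y ∈ Mint g l, {p : Pt | Y ⊆ gr p}.ncard) * Kp := by
        rw [Finset.sum_mul]
    _ ≤ ∑ l ∈ Finset.Ioc e m, r ^ l * Fintype.card Pt := Finset.sum_le_sum h2
    _ ≤ ∑ l ∈ Finset.range (m + 1), r ^ l * Fintype.card Pt := by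
        apply Finset.sum_le_sum_of_subset
        intro l hl
        rw [Finset.mem_Ioc] at hl
        rw [Finset.mem_range]
        omega
    _ = (∑ l ∈ Finset.range (m + 1), r ^ l) * Fintype.card Pt := by rw [Finset.sum_mul]
    _ ≤ (2 * r ^ m) * Fintype.card Pt := Nat.mul_le_mul_right _ (geom_sum_le r m hr)
    _ = _ := by ring

lemma approxR {Λ : Type*} (lf : Λ → Set ι → Prop) (B J r e B' Kp : ℕ) (hr : 64 * Q ≤ r)
    (hJ : 2 * e < 2 ^ J)
    (hB : ((univ : Finset (Finset ι)).filter (fun Y => Y.card ≤ 2 * e)).card * 4 ^ B' ≤ 4 ^ B)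
    (hleaf : ∀ l, ∃ T : Finset ι, T.card ≤ e ∧ LeafOn T (lf l))
    {Pt : Type*} [Fintype Pt] (gr : Pt → Finset ι)
    (hbig : ∀ Y : Finset ι, e < Y.card →
      {p : Pt | Y ⊆ gr p}.ncard * Kp ≤ Fintype.card Pt)
    {t : ℕ} (op : Fin t → Bool) (a b : Fin t → Λ ⊕ Fin t)
    (htop : ∀ i j, (a i = Sum.inr j → j < i) ∧ (b i = Sum.inr j → j < i))
    (val : Set ι → Fin t → Prop)
    (hval : ∀ x i, val x i ↔ (if op i = true then
        (Sum.elim (fun l => lf l x) (val x) (a i) ∧ Sum.elim (fun l => lf l x) (val x) (b i))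
      else (Sum.elim (fun l => lf l x) (val x) (a i) ∨ Sum.elim (fun l => lf l x) (val x) (b i))))
    (n : ℕ) (hn : n ≤ t) :
    ∃ (E : Set Pt) (E' : Set (Fin B → Fin J → ι → Fin Q)),
      E.ncard * Kp ≤ n * (Fintype.card Pt * (2 * r ^ (2 * e))) ∧
      E'.ncard * 4 ^ B' ≤ n * ((Q ^ Fintype.card ι) ^ J) ^ B ∧
      ∀ i : Fin t, i.val < n → ∃ A : Finset ι → Prop, Mon A ∧ Gen e A ∧
        (∀ l, l ≤ e → (Mint A l).card ≤ r ^ l) ∧
        (∀ p, p ∉ E → val (gr p : Set ι) i → A (gr p)) ∧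
        (∀ ω, ω ∉ E' → A (WB ω) → val (WB ω : Set ι) i) := by
  classical
  have hrpos : 0 < r := by
    have : 0 < Q := Nat.pos_of_ne_zero (NeZero.ne Q)
    omega
  have hr2 : 2 ≤ r := by
    have : 0 < Q := Nat.pos_of_ne_zero (NeZero.ne Q)
    omega
  induction n with
  | zero =>
    exact ⟨∅, ∅, by simp, by simp, fun i hi => absurd hi (Nat.not_lt_zero _)⟩
  | succ n ih =>
    obtain ⟨E, E', hE, hE', H⟩ := ih (Nat.le_of_succ_le hn)
    let g : Fin t := ⟨n, hn⟩
    have hz : ∀ z : Λ ⊕ Fin t, (∀ j, z = Sum.inr j → j < g) →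
        ∃ A : Finset ι → Prop, Mon A ∧ Gen e A ∧
        (∀ p, p ∉ E → Sum.elim (fun l => lf l (gr p : Set ι)) (val (gr p : Set ι)) z → A (gr p)) ∧
        (∀ ω, ω ∉ E' → A (WB ω) →
          Sum.elim (fun l => lf l (WB ω : Set ι)) (val (WB ω : Set ι)) z) := by
      rintro (l | j) hj
      · obtain ⟨T, hT, hl⟩ := hleaf l
        refine ⟨fun S => lf l (S : Set ι), ?_, ?_, fun p _ h => h, fun ω _ h => h⟩
        · intro S S' hSS h
          exact hl _ _ (fun e _ he => hSS he) h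
        · intro S hS
          refine ⟨S ∩ T, Finset.inter_subset_left,
            (Finset.card_le_card Finset.inter_subset_right).trans hT, ?_⟩
          refine hl _ _ (fun e he hes => ?_) hS
          simp only [coe_inter, Set.mem_inter_iff, mem_coe]
          exact ⟨hes, he⟩
      · obtain ⟨A, h1, h2, _, h4, h5⟩ := H j (hj j rfl)
        exact ⟨A, h1, h2, h4, h5⟩
    obtain ⟨A1, hA1m, hA1g, hA1p, hA1n⟩ := hz (a g) (fun j hj => (htop g j).1 hj)
    obtain ⟨A2, hA2m, hA2g, hA2p, hA2n⟩ := hz (b g) (fun j hj => (htop g j).2 hj)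
    -- combined function
    let Bf : Finset ι → Prop := fun S => if op g = true then (A1 S ∧ A2 S) else (A1 S ∨ A2 S)
    have hBm : Mon Bf := by
      intro S S' hSS h
      simp only [Bf] at h ⊢
      by_cases hop : op g = true
      · rw [if_pos hop] at h ⊢
        exact ⟨hA1m S S' hSS h.1, hA2m S S' hSS h.2⟩
      · rw [if_neg hop] at h ⊢
        exact h.imp (hA1m S S' hSS) (hA2m S S' hSS)
    have hBg : Gen (2 * e) Bf := by
      intro S h
      simp only [Bf] at h ⊢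
      by_cases hop : op g = true
      · rw [if_pos hop] at h
        obtain ⟨Y1, hY1, hY1c, hY1A⟩ := hA1g S h.1
        obtain ⟨Y2, hY2, hY2c, hY2A⟩ := hA2g S h.2
        refine ⟨Y1 ∪ Y2, Finset.union_subset hY1 hY2, ?_, ?_⟩
        · have := Finset.card_union_le Y1 Y2
          omega
        · rw [if_pos hop]
          exact ⟨hA1m _ _ Finset.subset_union_left hY1A, hA2m _ _ Finset.subset_union_right hY2A⟩
      · rw [if_neg hop] at h
        rcases h with h | h
        · obtain ⟨Y1, hY1, hY1c, hY1A⟩ := hA1g S h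
          refine ⟨Y1, hY1, by omega, ?_⟩
          rw [if_neg hop]
          exact Or.inl hY1A
        · obtain ⟨Y1, hY1, hY1c, hY1A⟩ := hA2g S h
          refine ⟨Y1, hY1, by omega, ?_⟩
          rw [if_neg hop]
          exact Or.inr hY1A
    obtain ⟨h, hhm, hhB, hhc, hhe, hhg⟩ := exists_closure (Q := Q) B J (2 * e) Bf hBm
    have hhG : Gen (2 * e) h := by
      intro S hS
      rcases hhg S hS with h1 | h1
      · obtain ⟨Y, hY, hYc, hYB⟩ := hBg S h1
        exact ⟨Y, hY, hYc, hhB Y hYB⟩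
      · exact h1
    have hthin : ∀ l, l ≤ 2 * e → (Mint h l).card ≤ r ^ l := fun l hl =>
      closed_thin B J r (2 * e) l hr (by omega) hl h hhm hhc
    let A : Finset ι → Prop := fun S => ∃ Y, Y ⊆ S ∧ Y.card ≤ e ∧ h Y
    have hAm : Mon A := by
      rintro S S' hSS ⟨Y, hY, hYc, hYh⟩
      exact ⟨Y, hY.trans hSS, hYc, hYh⟩
    have hAg : Gen e A := by
      rintro S ⟨Y, hY, hYc, hYh⟩
      exact ⟨Y, hY, hYc, Y, subset_rfl, hYc, hYh⟩
    have hAh : ∀ S, A S → h S := by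
      rintro S ⟨Y, hY, hYc, hYh⟩
      exact hhm Y S hY hYh
    have hAthin : ∀ l, l ≤ e → (Mint A l).card ≤ r ^ l := by
      intro l hl
      refine le_trans (Finset.card_le_card ?_) (hthin l (by omega))
      intro S hS
      rw [mem_Mint] at hS ⊢
      refine ⟨hS.1, hAh S hS.2.1, fun S' hS' hh => hS.2.2 S' hS' ⟨S', subset_rfl, ?_, hh⟩⟩
      have := Finset.card_lt_card hS'
      omega
    -- new positive errors
    let N1 : Set Pt := {p | h (gr p) ∧ ¬ A (gr p)}
    have hN1 : N1.ncard * Kp ≤ Fintype.card Pt * (2 * r ^ (2 * e)) := by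
      apply count_big gr r e (2 * e) Kp hr2 hbig h (fun l _ hl => hthin l hl)
      rintro p ⟨hp1, hp2⟩
      obtain ⟨Y0, hY0, hY0c, hY0h⟩ := hhG _ hp1
      obtain ⟨Y, hY, hYm⟩ := exists_minterm h Y0 hY0h
      refine ⟨Y, hY.trans hY0, hYm, ?_, (Finset.card_le_card hY).trans hY0c⟩
      by_contra hcon
      push Not at hcon
      exact hp2 ⟨Y, hY.trans hY0, hcon, ((mem_Mint _ _ _).mp hYm).2.1⟩
    -- new negative errors
    let N2 : Set (Fin B → Fin J → ι → Fin Q) := {ω | h (WB ω) ∧ ¬ Bf (WB ω)}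
    have hN2 : N2.ncard * 4 ^ B' ≤ ((Q ^ Fintype.card ι) ^ J) ^ B := by
      have h1 : N2.ncard * 4 ^ B ≤ ((univ : Finset (Finset ι)).filter
          (fun Y => Y.card ≤ 2 * e)).card * ((Q ^ Fintype.card ι) ^ J) ^ B := hhe
      have h2 : (N2.ncard * 4 ^ B') * 4 ^ B ≤ ((Q ^ Fintype.card ι) ^ J) ^ B * 4 ^ B := by
        calc (N2.ncard * 4 ^ B') * 4 ^ B = (N2.ncard * 4 ^ B) * 4 ^ B' := by ring
          _ ≤ (((univ : Finset (Finset ι)).filter
              (fun Y => Y.card ≤ 2 * e)).card * ((Q ^ Fintype.card ι) ^ J) ^ B) * 4 ^ B' :=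
              Nat.mul_le_mul_right _ h1
          _ = (((univ : Finset (Finset ι)).filter
              (fun Y => Y.card ≤ 2 * e)).card * 4 ^ B') * ((Q ^ Fintype.card ι) ^ J) ^ B := by ring
          _ ≤ 4 ^ B * ((Q ^ Fintype.card ι) ^ J) ^ B := Nat.mul_le_mul_right _ hB
          _ = _ := by ring
      exact Nat.le_of_mul_le_mul_right h2 (by positivity)
    refine ⟨E ∪ N1, E' ∪ N2, ?_, ?_, ?_⟩
    · calc (E ∪ N1).ncard * Kp ≤ (E.ncard + N1.ncard) * Kp :=
            Nat.mul_le_mul_right _ (Set.ncard_union_le _ _)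
        _ = E.ncard * Kp + N1.ncard * Kp := by ring
        _ ≤ n * (Fintype.card Pt * (2 * r ^ (2 * e))) + Fintype.card Pt * (2 * r ^ (2 * e)) :=
            Nat.add_le_add hE hN1
        _ = _ := by ring
    · calc (E' ∪ N2).ncard * 4 ^ B' ≤ (E'.ncard + N2.ncard) * 4 ^ B' :=
            Nat.mul_le_mul_right _ (Set.ncard_union_le _ _)
        _ = E'.ncard * 4 ^ B' + N2.ncard * 4 ^ B' := by ring
        _ ≤ n * ((Q ^ Fintype.card ι) ^ J) ^ B + ((Q ^ Fintype.card ι) ^ J) ^ B :=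
            Nat.add_le_add hE' hN2
        _ = _ := by ring
    · intro i hi
      rcases Nat.lt_succ_iff_lt_or_eq.mp hi with hlt | heq
      · obtain ⟨A, k1, k2, k3, k4, k5⟩ := H i hlt
        exact ⟨A, k1, k2, k3, fun p hp => k4 p (fun h => hp (Or.inl h)),
          fun ω hω => k5 ω (fun h => hω (Or.inl h))⟩
      · have hig : i = g := Fin.ext heq
        subst hig
        refine ⟨A, hAm, hAg, hAthin, ?_, ?_⟩
        · intro p hp hv
          have hpE : p ∉ E := fun h => hp (Or.inl h)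
          by_contra hcon
          apply hp
          right
          refine ⟨hhB _ ?_, hcon⟩
          rw [hval] at hv
          simp only [Bf]
          by_cases hop : op g = true
          · have hv' := (if_pos hop : _ = _) ▸ hv
            rw [if_pos hop] at hv ⊢
            exact ⟨hA1p p hpE hv.1, hA2p p hpE hv.2⟩
          · rw [if_neg hop] at hv ⊢
            exact hv.imp (hA1p p hpE) (hA2p p hpE)
        · intro ω hω hAω
          have hωE : ω ∉ E' := fun h => hω (Or.inl h)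
          have hB1 : Bf (WB ω) := by
            by_contra hcon
            exact hω (Or.inr ⟨hAh _ hAω, hcon⟩)
          rw [hval]
          simp only [Bf] at hB1
          by_cases hop : op g = true
          · rw [if_pos hop] at hB1 ⊢
            exact ⟨hA1n ω hωE hB1.1, hA2n ω hωE hB1.2⟩
          · rw [if_neg hop] at hB1 ⊢
            exact hB1.imp (hA1n ω hωE) (hA2n ω hωE)


/-- Abstract lower bound, average case, refined. -/
theorem spread_avgR {Λ : Type*} (lf : Λ → Set ι → Prop) (B J r e B' Kp k : ℕ) (hr : 64 * Q ≤ r)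
    (hJ : 2 * e < 2 ^ J)
    (hB : ((univ : Finset (Finset ι)).filter (fun Y => Y.card ≤ 2 * e)).card * 4 ^ B' ≤ 4 ^ B)
    (hleaf : ∀ l, ∃ T : Finset ι, T.card ≤ e ∧ LeafOn T (lf l))
    {Pt : Type*} [Fintype Pt] (gr : Pt → Finset ι)
    (hbig : ∀ Y : Finset ι, e < Y.card → {p : Pt | Y ⊆ gr p}.ncard * Kp ≤ Fintype.card Pt)
    (hind : ∀ Y : Finset ι, 1 ≤ Y.card → Y.card ≤ e →
      {p : Pt | Y ⊆ gr p}.ncard * (4 * r) ^ Y.card * k ≤ Fintype.card Pt)
    {t : ℕ} (op : Fin t → Bool) (a b : Fin t → Λ ⊕ Fin t)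
    (htop : ∀ i j, (a i = Sum.inr j → j < i) ∧ (b i = Sum.inr j → j < i))
    (val : Set ι → Fin t → Prop)
    (hval : ∀ x i, val x i ↔ (if op i = true then
        (Sum.elim (fun l => lf l x) (val x) (a i) ∧ Sum.elim (fun l => lf l x) (val x) (b i))
      else (Sum.elim (fun l => lf l x) (val x) (a i) ∨ Sum.elim (fun l => lf l x) (val x) (b i))))
    (o : Fin t) :
    {ω : Fin B → Fin J → ι → Fin Q | ¬ val (WB ω : Set ι) o}.ncard * 4 ^ B' ≤
      t * ((Q ^ Fintype.card ι) ^ J) ^ B ∨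
    ∃ F : Set Pt, (({p : Pt | val (gr p : Set ι) o} \ F).ncard : ℚ) * k ≤
        Fintype.card Pt * (1 / 3) ∧
      F.ncard * Kp ≤ t * (Fintype.card Pt * (2 * r ^ (2 * e))) := by
  classical
  have hQ : 0 < Q := Nat.pos_of_ne_zero (NeZero.ne Q)
  have hrpos : 0 < r := by omega
  obtain ⟨E, E', hE, hE', H⟩ := approxR (Q := Q) lf B J r e B' Kp hr hJ hB hleaf gr hbig op a b htop
    val hval t le_rfl
  obtain ⟨A, hAm, hAg, hAthin, hAp, hAn⟩ := H o o.isLt
  by_cases hA0 : A ∅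
  · left
    refine le_trans (Nat.mul_le_mul_right _ (Set.ncard_le_ncard ?_ (Set.toFinite _))) hE'
    intro ω hω
    by_contra hωE
    exact hω (hAn ω hωE (hAm ∅ _ (Finset.empty_subset _) hA0))
  · right
    refine ⟨E, ?_, hE⟩
    apply count_pos' gr r e k hrpos hind A (fun l hl => hAthin l hl)
    rintro p ⟨hp1, hp2⟩
    obtain ⟨Y0, hY0, hY0c, hY0A⟩ := hAg _ (hAp p hp2 hp1)
    obtain ⟨Y, hY, hYm⟩ := exists_minterm A Y0 hY0A
    refine ⟨Y, hY.trans hY0, hYm, ?_, (Finset.card_le_card hY).trans hY0c⟩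
    rw [Finset.card_pos, Finset.nonempty_iff_ne_empty]
    rintro rfl
    exact hA0 ((mem_Mint _ _ _).mp hYm).2.1

end Pool.Agent.L5helper92.SE
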