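import Pool.Agent.L5helper92.SE.Enc3
import Pool.Agent.L5helper92.KS.Fin

/-! The asymptotic form. -/

namespace Pool.Agent.L5helper92.SE

open Filter Finset Pool.Agent.H520R2.NM Pool.Agent.L5helper92.KS

lemma ev_log (C : ℕ) (δ : ℝ) (hδ : 0 < δ) :
    ∀ᶠ n : ℕ in atTop, (C : ℝ) * ((Nat.log 2 n + 1 : ℕ) : ℝ) ≤ δ * n := by
  have h1 : ∀ᶠ x : ℝ in atTop, ‖Real.log x‖ ≤ (δ / (4 * (C + 1))) * ‖x‖ :=
    (Real.isLittleO_log_id_atTop.def (by positivity))
  have h2 : ∀ᶠ n : ℕ in atTop, ‖Real.log (n : ℝ)‖ ≤ (δ / (4 * (C + 1))) * ‖(n : ℝ)‖ :=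
    tendsto_natCast_atTop_atTop.eventually h1
  have h3 : ∀ᶠ n : ℕ in atTop, 2 * (C : ℝ) / δ ≤ n :=
    tendsto_natCast_atTop_atTop.eventually_ge_atTop _
  filter_upwards [h2, h3, eventually_ge_atTop 1] with n hn hn3 hn1
  have hn1' : (1 : ℝ) ≤ n := by exact_mod_cast hn1
  rw [Real.norm_of_nonneg (Real.log_nonneg hn1'), Real.norm_of_nonneg (by positivity)] at hn
  have hlog : (Nat.log 2 n : ℝ) ≤ 2 * Real.log n := by
    have h4 : ((2 : ℝ)) ^ (Nat.log 2 n) ≤ n := by
      exact_mod_cast Nat.pow_log_le_self 2 (by omega)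
    have h5 : (Nat.log 2 n : ℝ) * Real.log 2 ≤ Real.log n := by
      rw [← Real.log_pow]
      exact Real.log_le_log (by positivity) h4
    have h6 : (1 / 2 : ℝ) < Real.log 2 := by
      have := Real.log_two_gt_d9
      linarith
    have h7 : (0 : ℝ) ≤ Nat.log 2 n := Nat.cast_nonneg _
    nlinarith
  have hC : (0 : ℝ) ≤ C := Nat.cast_nonneg _
  have h8 : (C : ℝ) * Real.log n ≤ δ / 4 * n := by
    have h9 : (C : ℝ) * Real.log n ≤ (C + 1) * ((δ / (4 * (C + 1))) * n) := by
      have : (0 : ℝ) ≤ Real.log n := Real.log_nonneg hn1'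
      nlinarith
    have h10 : ((C : ℝ) + 1) * ((δ / (4 * (C + 1))) * n) = δ / 4 * n := by
      field_simp
    linarith
  have h11 : (C : ℝ) ≤ δ / 2 * n := by
    rw [div_le_iff₀ hδ] at hn3
    nlinarith
  push_cast
  nlinarith

lemma exists_a (G : ℕ) (hG : 1 ≤ G) :
    ∃ a, G + 1 ≤ a ∧ 24 * 3 ^ G * G * (G - 1) ^ (a - G - 1) ≤ G ^ (a - G - 1) := by
  have hG0 : (0 : ℝ) < G := by exact_mod_cast hG
  have h1 : Tendsto (fun u : ℕ => (((G - 1 : ℕ) : ℝ) / G) ^ u) atTop (nhds 0) := by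
    apply tendsto_pow_atTop_nhds_zero_of_lt_one (by positivity)
    rw [div_lt_one hG0]
    have : G - 1 < G := by omega
    exact_mod_cast this
  have h2 : ∀ᶠ u : ℕ in atTop, (((G - 1 : ℕ) : ℝ) / G) ^ u < 1 / (24 * 3 ^ G * G) :=
    h1.eventually (gt_mem_nhds (by positivity))
  obtain ⟨u, hu⟩ := h2.exists
  refine ⟨G + 1 + u, by omega, ?_⟩
  have e1 : G + 1 + u - G - 1 = u := by omega
  rw [e1]
  rw [div_pow, div_lt_div_iff₀ (by positivity) (by positivity)] at hu
  have h3 : ((24 * 3 ^ G * G * (G - 1) ^ u : ℕ) : ℝ) ≤ ((G ^ u : ℕ) : ℝ) := by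
    rw [Nat.cast_mul, Nat.cast_pow, Nat.cast_pow]
    push_cast
    push_cast at hu
    nlinarith
  exact_mod_cast h3

/-- all parameters for large `n` -/
theorem par2_ev (G a K s0 : ℕ) (hG : 5 ≤ G) (hGa : G + 1 ≤ a)
    (hcond : 24 * 3 ^ G * G * (G - 1) ^ (a - G - 1) ≤ G ^ (a - G - 1)) :
    ∀ᶠ n : ℕ in atTop, ∀ L β σ V e : ℕ, L = Nat.log 2 n + 1 → β = (K + 3) * L + 8 → σ = s0 * L →
      V = (n - σ) / β → e + 1 = ((G - 1) * V) / (G * G) →
      Par2 V a β σ n G G e (n ^ 2) n (n ^ K) (2 ^ (β * (G * (e + 1) - 4 * e - 1))) ∧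
        1 ≤ V ∧ σ ≤ n := by
  filter_upwards [eventually_ge_atTop 4, eventually_ge_atTop (a + 3), ev_pow 4 K,
    ev_log (s0 + (K + 12) * (G * G + G * G + 1)) 1 one_pos, eventually_ge_atTop 1]
    with n hn4 hna hnK hlog hn1
  intro L β σ V e hL hβ hσ hV he
  have hlog' : (s0 + (K + 12) * (G * G + G * G + 1)) * L ≤ n := by
    rw [one_mul, ← hL] at hlog
    exact_mod_cast hlog
  have hL1 : 1 ≤ L := by omega
  have hβL : β ≤ (K + 12) * L := by
    rw [hβ]
    nlinarith
  have hβ0 : 0 < β := by omega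
  have hσn : σ ≤ n := by
    rw [hσ]
    nlinarith
  have hVge : 2 * (G * G) ≤ V := by
    rw [hV, Nat.le_div_iff_mul_le hβ0]
    have h1 : 2 * (G * G) * β ≤ 2 * (G * G) * ((K + 12) * L) := Nat.mul_le_mul_left _ hβL
    have h2 : 2 * (G * G) * ((K + 12) * L) + s0 * L ≤ n := by nlinarith
    omega
  have hGG : 0 < G * G := by positivity
  have he1 : 2 ≤ e + 1 := by
    rw [he, Nat.le_div_iff_mul_le hGG]
    calc 2 * (G * G) ≤ V := hVge
      _ = 1 * V := by ring
      _ ≤ (G - 1) * V := Nat.mul_le_mul_right _ (by omega)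
  have hVn : V * β + σ ≤ n := by
    have : V * β ≤ n - σ := by rw [hV]; exact Nat.div_mul_le_self _ _
    omega
  have hE : G * (G * (e + 1)) ≤ (G - 1) * V := by
    rw [← mul_assoc, he]
    exact Nat.mul_div_le _ _
  have hGE : G * (e + 1) ≤ V := by
    have h1 : G * (G * (e + 1)) ≤ G * V := hE.trans (Nat.mul_le_mul_right _ (Nat.sub_le _ _))
    exact Nat.le_of_mul_le_mul_left h1 (by omega)
  have heV : e ≤ V := by nlinarith
  have hnL : n < 2 ^ L := by
    rw [hL]
    exact Nat.lt_pow_succ_log_self (by norm_num) n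
  have hVn' : V + 1 ≤ n := by
    have : V * 8 ≤ V * β := Nat.mul_le_mul_left _ (by omega)
    omega
  have hpow : ∀ i, n ^ i ≤ 2 ^ (L * i) := fun i => by
    rw [pow_mul]
    exact Nat.pow_le_pow_left hnL.le i
  refine ⟨?_, by nlinarith, hσn⟩
  refine
    { hg := by omega
      hga := hGa
      hd := by omega
      hV := by nlinarith
      hcond := hcond
      hE := hE
      hB0 := by positivity
      hJ0 := by omega
      hc := Nat.one_le_pow _ _ (by omega)
      he := by omega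
      hJ := ?_
      hB := ?_
      hβ := by omega
      hq := ?_
      hn := hVn
      hS1 := Nat.one_le_two_pow
      hS2 := ?_
      hS3 := ?_ }
  · -- hJ
    have h1 : 2 * e ≤ n := by nlinarith
    exact lt_of_le_of_lt h1 Nat.lt_two_pow_self
  · -- hB
    have h1 : (V + 1) * (2 ^ β) ^ a + 1 ≤ 2 ^ (L + β * a + 1) := by
      have h2 : (V + 1) * (2 ^ β) ^ a ≤ 2 ^ (L + β * a) := by
        rw [pow_add, pow_mul]
        exact Nat.mul_le_mul_right _ (by omega)
      have h3 : 1 ≤ 2 ^ (L + β * a) := Nat.one_le_two_pow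
      rw [pow_succ]
      omega
    calc ((V + 1) * (2 ^ β) ^ a + 1) ^ (2 * e) * 4 ^ n
        ≤ (2 ^ (L + β * a + 1)) ^ (2 * e) * (2 ^ 2) ^ n :=
          Nat.mul_le_mul (Nat.pow_le_pow_left h1 _) (le_of_eq (by norm_num))
      _ = 2 ^ ((L + β * a + 1) * (2 * e) + 2 * n) := by rw [← pow_mul, ← pow_mul, ← pow_add]
      _ ≤ 2 ^ (2 * n ^ 2) := by
          apply Nat.pow_le_pow_right (by norm_num)
          have h4 : (L + β * a + 1) * e ≤ (a + 2) * (V * β) := by
            have h5 : L + β * a + 1 ≤ (a + 2) * β := by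
              have : L + 1 ≤ 2 * β := by
                rw [hβ]
                nlinarith
              nlinarith
            calc (L + β * a + 1) * e ≤ ((a + 2) * β) * V := Nat.mul_le_mul h5 heV
              _ = _ := by ring
          have h6 : (a + 2) * (V * β) ≤ (a + 2) * n := Nat.mul_le_mul_left _ (by omega)
          nlinarith
      _ = 4 ^ (n ^ 2) := by
          rw [pow_mul]
          norm_num
  · -- hq
    calc 4 * (64 * (2 ^ β * (n ^ 2 * n))) * n ^ K = 2 ^ β * (2 ^ 8 * n ^ (K + 3)) := by ring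
      _ ≤ 2 ^ β * (2 ^ 8 * 2 ^ (L * (K + 3))) := by
          apply Nat.mul_le_mul_left
          exact Nat.mul_le_mul_left _ (hpow _)
      _ = 2 ^ (β * 2) := by
          rw [← pow_add, ← pow_add]
          congr 1
          rw [hβ]
          ring
      _ ≤ 2 ^ (β * G) := Nat.pow_le_pow_right (by norm_num) (Nat.mul_le_mul_left _ (by omega))
      _ = (2 ^ β) ^ G := by rw [pow_mul]
  · -- hS2
    have h1 : β * (G * (e + 1) - 4 * e - 1) ≤ n := by
      calc β * (G * (e + 1) - 4 * e - 1) ≤ β * V := Nat.mul_le_mul_left _ (by omega)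
        _ ≤ n := by rw [mul_comm]; omega
    calc 4 * n ^ K * 2 ^ (β * (G * (e + 1) - 4 * e - 1)) ≤ 2 ^ n * 2 ^ n :=
          Nat.mul_le_mul hnK.le (Nat.pow_le_pow_right (by norm_num) h1)
      _ = 4 ^ n := by rw [show (4 : ℕ) = 2 * 2 from rfl, mul_pow]
  · -- hS3
    have h1 : 64 * (2 ^ β * (n ^ 2 * n)) ≤ 2 ^ (β * 2) := by
      calc 64 * (2 ^ β * (n ^ 2 * n)) = 2 ^ β * (2 ^ 6 * n ^ 3) := by ring
        _ ≤ 2 ^ β * (2 ^ 6 * 2 ^ (L * 3)) := by
            apply Nat.mul_le_mul_left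
            exact Nat.mul_le_mul_left _ (hpow _)
        _ = 2 ^ (β + (6 + L * 3)) := by rw [← pow_add, ← pow_add]
        _ ≤ 2 ^ (β * 2) := by
            apply Nat.pow_le_pow_right (by norm_num)
            have : 6 + L * 3 ≤ β := by
              rw [hβ]
              nlinarith
            omega
    have h2 : 12 * n ^ K ≤ 2 ^ β := by
      calc 12 * n ^ K ≤ 2 ^ 4 * 2 ^ (L * K) := Nat.mul_le_mul (by norm_num) (hpow K)
        _ = 2 ^ (4 + L * K) := by rw [← pow_add]
        _ ≤ 2 ^ β := by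
            apply Nat.pow_le_pow_right (by norm_num)
            rw [hβ]
            nlinarith
    have h3 : 4 * e + 1 ≤ G * (e + 1) := by nlinarith
    calc 12 * n ^ K * 2 ^ (β * (G * (e + 1) - 4 * e - 1)) * (64 * (2 ^ β * (n ^ 2 * n))) ^ (2 * e)
        ≤ 2 ^ β * 2 ^ (β * (G * (e + 1) - 4 * e - 1)) * (2 ^ (β * 2)) ^ (2 * e) :=
          Nat.mul_le_mul (Nat.mul_le_mul_right _ h2) (Nat.pow_le_pow_left h1 _)
      _ = 2 ^ (β * (1 + (G * (e + 1) - 4 * e - 1) + 4 * e)) := by
          rw [← pow_mul, ← pow_add, ← pow_add]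
          congr 1
          ring
      _ = (2 ^ β) ^ (G * (e + 1)) := by
          rw [← pow_mul]
          congr 2
          omega

theorem main_seth (δ : ℝ) (hδ : 0 < δ) (hδ1 : δ < 1) (K : ℕ) :
    ∃ D : ℕ, ∀ᶠ n : ℕ in atTop, ∃ (m : ℕ) (cl : Fin m → Finset (Fin n × Bool)),
      n ≤ m ∧ m ≤ n ^ D ∧ (∀ i, (cl i).card ≤ D * Nat.log 2 n) ∧
      ∃ (Λ : Type) (_ : Fintype Λ) (_ : Nonempty Λ) (x : Λ → Fin m → Bool),
        ∀ (N : ℕ) (C : Circuit (Fin m) N) (out : Wire (Fin m) N),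
          (((C.fanins.map (· + 1)).prod : ℕ) : ℝ) ≤ (m : ℝ) ^ (1 - δ) →
          ((C.size + C.fanins.sum : ℕ) : ℝ) ≤ 2 ^ ((1 - δ) * n) →
          ({l : Λ | (out.eval (x l) (C.vals (x l)) = true ↔ ¬ SatList cl (x l))}.ncard : ℝ) <
            (1 / 2 + 1 / (n : ℝ) ^ K) * Fintype.card Λ := by
  -- parameters
  obtain ⟨G, hG5, hGδ⟩ : ∃ G : ℕ, 5 ≤ G ∧ 10 ≤ δ * G := by
    refine ⟨⌈10 / δ⌉₊ + 5, by omega, ?_⟩
    have h1 : 10 / δ ≤ ⌈10 / δ⌉₊ := Nat.le_ceil _
    have h2 : δ * (10 / δ) = 10 := by field_simp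
    push_cast
    nlinarith
  obtain ⟨a, hGa, hcond⟩ := exists_a G (by omega)
  obtain ⟨s0, hs0⟩ : ∃ s0 : ℕ, (K + 1 + a * (K + 11) : ℝ) ≤ δ * s0 := by
    refine ⟨⌈(K + 1 + a * (K + 11) : ℝ) / δ⌉₊, ?_⟩
    have h1 := Nat.le_ceil ((K + 1 + a * (K + 11) : ℝ) / δ)
    rwa [div_le_iff₀' hδ] at h1
  refine ⟨2 * (s0 + 1 + a * (K + 11)), ?_⟩
  filter_upwards [par2_ev G a K s0 hG5 hGa hcond, eventually_ge_atTop 4,
    ev_log (s0 + (K + 11) * (G + 1)) (δ / 2) (by positivity)] with n hpar hn4 hlog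
  set L := Nat.log 2 n + 1 with hL
  set β := (K + 3) * L + 8 with hβ
  set σ := s0 * L with hσ
  set V := (n - σ) / β with hV
  -- the number e
  have hpar0 := hpar L β σ V (((G - 1) * V) / (G * G) - 1) rfl rfl rfl rfl
  have hL1 : 1 ≤ L := by omega
  have hβL : β ≤ (K + 11) * L := by
    rw [hβ]
    nlinarith
  have hβ0 : 0 < β := by omega
  have hβ0R : (0 : ℝ) < β := by exact_mod_cast hβ0
  have hG0R : (0 : ℝ) < G := by
    have : 0 < G := by omega
    exact_mod_cast this
  have hG5R : (5 : ℝ) ≤ G := by exact_mod_cast hG5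
  have hLR : ((s0 + (K + 11) * (G + 1) : ℕ) : ℝ) * (L : ℝ) ≤ δ / 2 * n := hlog
  have hn0 : (0 : ℝ) < n := by
    have : 0 < n := by omega
    exact_mod_cast this
  have hσβR : (σ : ℝ) + β * (G + 1) ≤ δ / 2 * n := by
    refine le_trans ?_ hLR
    have h1 : σ + β * (G + 1) ≤ (s0 + (K + 11) * (G + 1)) * L := by
      calc σ + β * (G + 1) ≤ s0 * L + ((K + 11) * L) * (G + 1) :=
            Nat.add_le_add_left (Nat.mul_le_mul_right _ hβL) _
        _ = _ := by ring
    exact_mod_cast h1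
  have hσn : σ ≤ n := by
    have h1 : (σ : ℝ) ≤ n := by
      have h2 : (0 : ℝ) ≤ β * (G + 1) := by positivity
      nlinarith
    exact_mod_cast h1
  have hVR : (n : ℝ) - σ - β ≤ V * β := by
    have h1 : n - σ < (V + 1) * β := by
      rw [hV, mul_comm]
      exact Nat.lt_mul_div_succ _ hβ0
    have h2 : n < (V + 1) * β + σ := by omega
    have h3 : (n : ℝ) < (V + 1) * β + σ := by exact_mod_cast h2
    linarith
  have hVG : G * G ≤ (G - 1) * V := by
    have h1 : (G : ℝ) * G ≤ (G - 1) * V := by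
      have h2 : ((G : ℝ) - 1) * (V * β) ≥ (G - 1) * (n - σ - β) :=
        mul_le_mul_of_nonneg_left hVR (by linarith)
      have h3 : (n : ℝ) - σ - β ≥ G * β * 1 + (n / 2 - n / 2) := by nlinarith
      have h4 : ((G : ℝ) - 1) * V * β ≥ (G * G) * β := by
        have h5 : ((G : ℝ) - 1) * (n - σ - β) ≥ (G * G) * β := by
          have h6 : (n : ℝ) - σ - β ≥ 2 * G * β := by
            have h7 : (n : ℝ) ≥ 2 / δ * (σ + β * (G + 1)) := by
              rw [ge_iff_le, div_mul_eq_mul_div, div_le_iff₀ hδ]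
              nlinarith
            have h8 : 2 / δ ≥ 2 := by
              rw [ge_iff_le, le_div_iff₀ hδ]
              linarith
            have h9 : (0 : ℝ) ≤ σ + β * (G + 1) := by positivity
            nlinarith
          nlinarith
        nlinarith
      exact le_of_mul_le_mul_right h4 hβ0R
    have h2 : ((G * G : ℕ) : ℝ) ≤ (((G - 1) * V : ℕ) : ℝ) := by
      rw [Nat.cast_mul, Nat.cast_mul, Nat.cast_sub (by omega)]
      push_cast
      exact h1
    exact_mod_cast h2
  have hGG : 0 < G * G := by positivity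
  have he1 : 1 ≤ ((G - 1) * V) / (G * G) := by
    rw [Nat.le_div_iff_mul_le hGG, one_mul]
    exact hVG
  set e := ((G - 1) * V) / (G * G) - 1 with he
  obtain ⟨P, hV1, _⟩ := hpar0 (by omega)
  have heE : e + 1 = ((G - 1) * V) / (G * G) := by omega
  obtain ⟨cl, hcl, Λ, i1, i2, x, hx⟩ := explicit2 P
  have hn2L : 2 ^ L ≤ n ^ 2 := by
    have h1 : 2 ^ (Nat.log 2 n) ≤ n := Nat.pow_log_le_self 2 (by omega)
    calc 2 ^ L = 2 ^ (Nat.log 2 n) * 2 := by rw [hL, pow_succ]
      _ ≤ n * n := Nat.mul_le_mul h1 (by omega)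
      _ = n ^ 2 := by ring
  have hnL : n < 2 ^ L := by
    rw [hL]
    exact Nat.lt_pow_succ_log_self (by norm_num) n
  have hVn : V + 1 ≤ n := by
    have h1 := P.hn
    have h2 : V * 8 ≤ V * β := Nat.mul_le_mul_left _ (by omega)
    omega
  -- bound for m
  have hm : 2 ^ σ * ((V + 1) * (2 ^ β) ^ a) ≤ 2 ^ (σ + L + β * a) := by
    have h1 : (2:ℕ) ^ (σ + L + β * a) = 2 ^ σ * (2 ^ L * (2 ^ β) ^ a) := by
      rw [pow_add 2 (σ + L) (β * a), pow_add 2 σ L, pow_mul 2 β a, mul_assoc]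
    rw [h1]
    exact Nat.mul_le_mul_left _ (Nat.mul_le_mul_right _ (by omega))
  have hexpo : σ + L + β * a ≤ (s0 + 1 + a * (K + 11)) * L := by
    calc σ + L + β * a ≤ s0 * L + L + ((K + 11) * L) * a :=
          Nat.add_le_add_left (Nat.mul_le_mul_right _ hβL) _
      _ = _ := by ring
  have hs01 : 1 ≤ s0 := by
    rcases Nat.eq_zero_or_pos s0 with h | h
    · exfalso
      rw [h] at hs0
      have h1 : (0 : ℝ) < K + 1 + a * (K + 11) := by positivity
      simp at hs0
      linarith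
    · exact h
  have hnm : n ≤ 2 ^ σ * ((V + 1) * (2 ^ β) ^ a) := by
    have h1 : L ≤ σ := by rw [hσ]; exact Nat.le_mul_of_pos_left _ hs01
    have h2 : 0 < (V + 1) * (2 ^ β) ^ a := by positivity
    calc n ≤ 2 ^ L := hnL.le
      _ ≤ 2 ^ σ := Nat.pow_le_pow_right (by norm_num) h1
      _ ≤ 2 ^ σ * ((V + 1) * (2 ^ β) ^ a) := Nat.le_mul_of_pos_right _ h2
  refine ⟨_, cl, hnm, ?_, ?_, Λ, i1, i2, x, ?_⟩
  · calc 2 ^ σ * ((V + 1) * (2 ^ β) ^ a) ≤ 2 ^ (σ + L + β * a) := hm
      _ ≤ 2 ^ (L * (s0 + 1 + a * (K + 11))) := by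
          apply Nat.pow_le_pow_right (by norm_num)
          rw [mul_comm L]
          exact hexpo
      _ = (2 ^ L) ^ (s0 + 1 + a * (K + 11)) := by rw [pow_mul]
      _ ≤ (n ^ 2) ^ (s0 + 1 + a * (K + 11)) := Nat.pow_le_pow_left hn2L _
      _ = n ^ (2 * (s0 + 1 + a * (K + 11))) := by rw [← pow_mul]
  · intro i
    refine (hcl i).trans ?_
    have h1 : L ≤ 2 * Nat.log 2 n := by
      have : 1 ≤ Nat.log 2 n := Nat.log_pos (by norm_num) (by omega)
      omega
    calc a * β + σ ≤ σ + L + β * a := by rw [mul_comm a]; omega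
      _ ≤ (s0 + 1 + a * (K + 11)) * L := hexpo
      _ ≤ (s0 + 1 + a * (K + 11)) * (2 * Nat.log 2 n) := Nat.mul_le_mul_left _ h1
      _ = _ := by ring
  · intro N C out hprod hsize
    have hS : C.size + C.fanins.sum ≤ 2 ^ (β * (G * (e + 1) - 4 * e - 1)) := by
      have h1 : (1 - δ) * n ≤ ((β * (G * (e + 1) - 4 * e - 1) : ℕ) : ℝ) := by
        have h2 : 4 * e + 1 ≤ G * (e + 1) := by nlinarith
        rw [Nat.cast_mul, Nat.cast_sub (by omega), Nat.cast_sub (by omega)]
        push_cast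
        have h3 : ((G : ℝ) - 1) * V - G * G ≤ G * G * (e + 1) := by
          have h4 : (G - 1) * V < (e + 1 + 1) * (G * G) := by
            rw [heE, mul_comm _ (G * G)]
            exact Nat.lt_mul_div_succ _ hGG
          have h5 : (((G - 1) * V : ℕ) : ℝ) < (((e + 1 + 1) * (G * G) : ℕ) : ℝ) := by
            exact_mod_cast h4
          rw [Nat.cast_mul, Nat.cast_sub (by omega)] at h5
          push_cast at h5
          nlinarith
        -- multiply by β (G - 4)
        have h6 : (G * G : ℝ) * (β * (G * (e + 1) - 4 * e - 1)) ≥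
            (G - 4) * (β * ((G - 1) * V - G * G)) := by
          have h7 : (G : ℝ) * (e + 1) - 4 * e - 1 ≥ (G - 4) * (e + 1) := by nlinarith
          have h8 : (G * G : ℝ) * (β * (G * (e + 1) - 4 * e - 1)) ≥
              (G * G) * (β * ((G - 4) * (e + 1))) := by
            apply mul_le_mul_of_nonneg_left _ (by positivity)
            exact mul_le_mul_of_nonneg_left h7 hβ0R.le
          have h9 : (G * G : ℝ) * (β * ((G - 4) * (e + 1))) =
              (G - 4) * (β * (G * G * (e + 1))) := by ring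
          have h10 : ((G : ℝ) - 4) * (β * (G * G * (e + 1))) ≥
              (G - 4) * (β * ((G - 1) * V - G * G)) := by
            apply mul_le_mul_of_nonneg_left _ (by linarith)
            exact mul_le_mul_of_nonneg_left h3 hβ0R.le
          linarith
        have h11 : (G * G : ℝ) * ((1 - δ) * n) ≤ (G - 4) * (β * ((G - 1) * V - G * G)) := by
          have h12 : (β : ℝ) * ((G - 1) * V - G * G) ≥ (G - 1) * (n - σ - β) - β * (G * G) := by
            nlinarith
          have h13 : ((G : ℝ) - 4) * (β * ((G - 1) * V - G * G)) ≥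
              (G - 4) * ((G - 1) * (n - σ - β) - β * (G * G)) :=
            mul_le_mul_of_nonneg_left h12 (by linarith)
          have h14 : ((G : ℝ) - 4) * ((G - 1) * (n - σ - β) - β * (G * G)) ≥
              (G - 4) * (G - 1) * n - (G * G) * (σ + β * (G + 1)) := by
            have h15 : (0 : ℝ) ≤ σ := Nat.cast_nonneg _
            have h16 : ((G : ℝ) - 4) * (G - 1) ≤ G * G := by nlinarith
            have h17 : ((G : ℝ) - 4) * (G - 1) * (σ + β) ≤ G * G * (σ + β) :=
              mul_le_mul_of_nonneg_right h16 (by positivity)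
            have h18 : ((G : ℝ) - 4) * (β * (G * G)) ≤ G * (β * (G * G)) :=
              mul_le_mul_of_nonneg_right (by linarith) (by positivity)
            nlinarith
          have h19 : ((G : ℝ) - 4) * (G - 1) ≥ G * G - 5 * G := by nlinarith
          have h20 : ((G : ℝ) - 4) * (G - 1) * n ≥ (G * G - 5 * G) * n :=
            mul_le_mul_of_nonneg_right h19 hn0.le
          have h21 : (G * G : ℝ) * (σ + β * (G + 1)) ≤ (G * G) * (δ / 2 * n) :=
            mul_le_mul_of_nonneg_left hσβR (by positivity)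
          have h22 : (5 : ℝ) * G ≤ G * G * (δ / 2) := by nlinarith
          have h23 : (5 : ℝ) * G * n ≤ G * G * (δ / 2) * n :=
            mul_le_mul_of_nonneg_right h22 hn0.le
          nlinarith
        exact le_of_mul_le_mul_left (h11.trans h6) (by positivity)
      have h2 : ((C.size + C.fanins.sum : ℕ) : ℝ) ≤
          ((2 ^ (β * (G * (e + 1) - 4 * e - 1)) : ℕ) : ℝ) := by
        refine hsize.trans ?_
        rw [Nat.cast_pow, ← Real.rpow_natCast]
        push_cast
        apply Real.rpow_le_rpow_of_exponent_le (by norm_num)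
        exact_mod_cast h1
      exact_mod_cast h2
    have hprod2 : n ^ K * (C.fanins.map (· + 1)).prod ≤ 2 ^ σ := by
      have h1 : (((C.fanins.map (· + 1)).prod : ℕ) : ℝ) ≤
          2 ^ (((σ + L + β * a : ℕ) : ℝ) * (1 - δ)) := by
        refine hprod.trans ?_
        rw [Real.rpow_mul (by norm_num), Real.rpow_natCast]
        apply Real.rpow_le_rpow (by positivity) _ (by linarith)
        exact_mod_cast hm
      have h2 : ((n ^ K : ℕ) : ℝ) ≤ 2 ^ (((L * K : ℕ) : ℝ)) := by
        rw [Real.rpow_natCast]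
        have : n ^ K ≤ 2 ^ (L * K) := by
          rw [pow_mul]
          exact Nat.pow_le_pow_left hnL.le K
        exact_mod_cast this
      have h3 : ((n ^ K * (C.fanins.map (· + 1)).prod : ℕ) : ℝ) ≤ ((2 ^ σ : ℕ) : ℝ) := by
        rw [Nat.cast_mul]
        calc ((n ^ K : ℕ) : ℝ) * (((C.fanins.map (· + 1)).prod : ℕ) : ℝ)
            ≤ 2 ^ (((L * K : ℕ) : ℝ)) * 2 ^ (((σ + L + β * a : ℕ) : ℝ) * (1 - δ)) :=
              mul_le_mul h2 h1 (Nat.cast_nonneg _) (by positivity)
          _ = 2 ^ (((L * K : ℕ) : ℝ) + ((σ + L + β * a : ℕ) : ℝ) * (1 - δ)) := by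
              rw [Real.rpow_add (by norm_num)]
          _ ≤ 2 ^ (σ : ℝ) := by
              apply Real.rpow_le_rpow_of_exponent_le (by norm_num)
              have h4 : (β : ℝ) ≤ (K + 11) * L := by exact_mod_cast hβL
              have h5 : (σ : ℝ) = s0 * L := by rw [hσ]; push_cast; ring
              have h6 : (0 : ℝ) < L := by
                have : 0 < L := by omega
                exact_mod_cast this
              have h7 : (K + 1 + a * (K + 11) : ℝ) * L ≤ δ * s0 * L :=
                mul_le_mul_of_nonneg_right hs0 h6.le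
              have h8 : (β : ℝ) * a ≤ (K + 11) * L * a :=
                mul_le_mul_of_nonneg_right h4 (Nat.cast_nonneg _)
              have h9 : (0 : ℝ) ≤ (L + β * a) * δ := by positivity
              push_cast
              rw [h5]
              nlinarith
          _ = ((2 ^ σ : ℕ) : ℝ) := by rw [Real.rpow_natCast]; push_cast; ring
      exact_mod_cast h3
    have hfin := hx N C out hS hprod2
    have hnK : (0 : ℝ) < (n : ℝ) ^ K := by positivity
    have h11 : (2 : ℝ) * (n : ℝ) ^ K * ({l : Λ | (out.eval (x l) (C.vals (x l)) = true ↔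
        ¬ SatList cl (x l))}.ncard : ℝ) < ((n : ℝ) ^ K + 2) * Fintype.card Λ := by
      exact_mod_cast hfin
    have h16 : (2 * (n : ℝ) ^ K : ℝ) * ((1 / 2 + 1 / (n : ℝ) ^ K) * Fintype.card Λ) =
        ((n : ℝ) ^ K + 2) * Fintype.card Λ := by
      field_simp
    rw [← h16] at h11
    exact lt_of_mul_lt_mul_left h11 (by positivity)

end Pool.Agent.L5helper92.SE
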