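import Pool.Agent.L5helper92.KS.Defs

/-! Satisfiability of subformulas of a fixed list of clauses. -/

namespace Pool.Agent.L5helper92.SE

/-- `cl` is a list of clauses (sets of literals, see `KS.Clause`, `KS.Holds`) over `n` Boolean
variables and `x` selects a sublist of it; there is an assignment that satisfies all selected
clauses. -/
def SatList {n m : ℕ} (cl : Fin m → Finset (Fin n × Bool)) (x : Fin m → Bool) : Prop :=
  ∃ z : Fin n → Bool, ∀ i, x i = true → Pool.Agent.L5helper92.KS.Holds z (cl i)

end Pool.Agent.L5helper92.SE
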