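import Pool.Agent.L5helper92.SE.Approx

/-! Average-case lower bound for general spread systems, refined form. -/

namespace Pool.Agent.L5helper92.SE

open Finset Pool.Agent.H520R2 Pool.Agent.H560R2

/-- colourings of the stages with a zero -/
lemma card_col (n Q : ℕ) (hQ : 0 < Q) :
    ((univ : Finset (Fin n → Fin Q)).filter (fun g => ∃ p, g p = ⟨0, hQ⟩)).card * Q ≤
      n * Q ^ n := by
  classical
  have hsub : ((univ : Finset (Fin n → Fin Q)).filter (fun g => ∃ p, g p = ⟨0, hQ⟩)) ⊆
      (univ : Finset (Fin n)).biUnion (fun p => univ.filter (fun g : Fin n → Fin Q =>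
        g p = ⟨0, hQ⟩)) := by
    intro g hg
    rw [mem_filter] at hg
    obtain ⟨p, hp⟩ := hg.2
    rw [mem_biUnion]
    exact ⟨p, mem_univ _, by rw [mem_filter]; exact ⟨mem_univ _, hp⟩⟩
  have hone : ∀ p : Fin n, ((univ : Finset (Fin n → Fin Q)).filter (fun g =>
      g p = ⟨0, hQ⟩)).card * Q = Q ^ n := by
    intro p
    have h1 : ((univ : Finset (Fin n → Fin Q)).filter (fun g => g p = ⟨0, hQ⟩)) =
        Fintype.piFinset (fun p' => if p' = p then {⟨0, hQ⟩} else univ) := by
      ext g
      simp only [mem_filter, mem_univ, true_and, Fintype.mem_piFinset]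
      constructor
      · intro h p'
        split_ifs with hp
        · rw [hp, h]; exact mem_singleton_self _
        · exact mem_univ _
      · intro h
        have := h p
        rw [if_pos rfl, mem_singleton] at this
        exact this
    rw [h1, Fintype.card_piFinset]
    have h2 : ∀ p' : Fin n, (if p' = p then ({⟨0, hQ⟩} : Finset (Fin Q)) else univ).card =
        if p' = p then 1 else Q := by
      intro p'
      split_ifs
      · simp
      · simp
    simp only [h2]
    rw [Finset.prod_ite]
    simp only [prod_const_one, one_mul, prod_const]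
    have h3 : (univ.filter (fun p' : Fin n => ¬ p' = p)).card = n - 1 := by
      have h4 := Finset.card_filter_add_card_filter_not (s := (univ : Finset (Fin n)))
        (fun p' => p' = p)
      rw [card_univ, Fintype.card_fin] at h4
      have h5 : (univ.filter (fun p' : Fin n => p' = p)).card = 1 := by
        rw [Finset.card_eq_one]
        exact ⟨p, by ext p'; simp⟩
      omega
    rw [h3, ← pow_succ]
    congr 1
    have := p.isLt
    omega
  calc _ ≤ (∑ p : Fin n, ((univ : Finset (Fin n → Fin Q)).filter (fun g =>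
        g p = ⟨0, hQ⟩)).card) * Q :=
        Nat.mul_le_mul_right _ ((card_le_card hsub).trans card_biUnion_le)
    _ = ∑ p : Fin n, Q ^ n := by
        rw [Finset.sum_mul]
        exact Finset.sum_congr rfl (fun p _ => hone p)
    _ = n * Q ^ n := by rw [sum_const, card_univ, Fintype.card_fin, smul_eq_mul]

/-- probability that the random set contains a given set -/
lemma count_containsR {ι : Type*} [Fintype ι] [DecidableEq ι] {Q : ℕ} [NeZero Q] (B J P0 : ℕ)
    (hQ : P0 * (B * J) ≤ Q) (S : Finset ι) :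
    {ω : Fin B → Fin J → ι → Fin Q | S ⊆ WB ω}.ncard * P0 ^ S.card ≤
      ((Q ^ Fintype.card ι) ^ J) ^ B := by
  classical
  have hQ0 : 0 < Q := Nat.pos_of_ne_zero (NeZero.ne Q)
  -- columns
  let col : Finset (Fin B × Fin J → Fin Q) := univ.filter (fun g => ∃ p, g p = 0)
  have hcol2 : P0 * col.card ≤ Q ^ (B * J) := by
    have h1 : col.card = ((univ : Finset (Fin (B * J) → Fin Q)).filter
        (fun g => ∃ p, g p = ⟨0, hQ0⟩)).card := by
      let eq : (Fin B × Fin J → Fin Q) ≃ (Fin (B * J) → Fin Q) :=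
        Equiv.arrowCongr finProdFinEquiv (Equiv.refl _)
      apply Finset.card_bij (fun g _ => eq g)
      · intro g hg
        rw [mem_filter] at hg ⊢
        obtain ⟨p, hp⟩ := hg.2
        refine ⟨mem_univ _, finProdFinEquiv p, ?_⟩
        show g (finProdFinEquiv.symm (finProdFinEquiv p)) = _
        rw [Equiv.symm_apply_apply, hp]
        rfl
      · intro g _ g' _ h
        exact eq.injective h
      · intro g hg
        rw [mem_filter] at hg
        obtain ⟨p, hp⟩ := hg.2
        refine ⟨eq.symm g, ?_, eq.apply_symm_apply g⟩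
        rw [mem_filter]
        refine ⟨mem_univ _, finProdFinEquiv.symm p, ?_⟩
        show g (finProdFinEquiv (finProdFinEquiv.symm p)) = _
        rw [Equiv.apply_symm_apply, hp]
        rfl
    have h2 := card_col (B * J) Q hQ0
    rw [← h1] at h2
    rcases Nat.eq_zero_or_pos (B * J) with h0 | h0
    · have h3 : col.card * Q ≤ 0 := by rw [h0, zero_mul] at h2; exact h2
      have h4 : col.card = 0 := by
        rcases Nat.eq_zero_or_pos col.card with h | h
        · exact h
        · have := Nat.mul_pos h hQ0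
          omega
      rw [h4, mul_zero]
      exact Nat.zero_le _
    · refine Nat.le_of_mul_le_mul_right ?_ h0
      calc P0 * col.card * (B * J) = (P0 * (B * J)) * col.card := by ring
        _ ≤ Q * col.card := Nat.mul_le_mul_right _ hQ
        _ = col.card * Q := mul_comm _ _
        _ ≤ B * J * Q ^ (B * J) := h2
        _ = _ := mul_comm _ _
  have hle : {ω : Fin B → Fin J → ι → Fin Q | S ⊆ WB ω}.ncard ≤
      (Fintype.piFinset (fun v : ι => if v ∈ S then col else univ)).card := by
    rw [← Set.ncard_coe_finset]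
    apply Set.ncard_le_ncard_of_injOn
      (fun (ω : Fin B → Fin J → ι → Fin Q) => fun (v : ι) (p : Fin B × Fin J) => ω p.1 p.2 v)
    · intro ω hω
      have hω' : S ⊆ WB ω := hω
      rw [Finset.mem_coe, Fintype.mem_piFinset]
      intro v
      by_cases hv : v ∈ S
      · simp only [hv, if_true, col, mem_filter, mem_univ, true_and]
        obtain ⟨b, j, h⟩ := (mem_WB ω v).mp (hω' hv)
        exact ⟨(b, j), h⟩
      · simp [hv]
    · intro ω _ ω' _ h
      funext b j v
      exact congrFun (congrFun h v) (b, j)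
  have hprod : (Fintype.piFinset (fun v : ι => if v ∈ S then col else univ)).card * P0 ^ S.card ≤
      (Q ^ (B * J)) ^ Fintype.card ι := by
    rw [Fintype.card_piFinset]
    have h1 : ∀ v : ι, (if v ∈ S then col else (univ : Finset (Fin B × Fin J → Fin Q))).card =
        if v ∈ S then col.card else Q ^ (B * J) := by
      intro v
      split_ifs
      · rfl
      · rw [Finset.card_univ, Fintype.card_fun, Fintype.card_fin, Fintype.card_prod,
          Fintype.card_fin, Fintype.card_fin]
    simp only [h1]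
    have h2 : P0 ^ S.card = ∏ v : ι, if v ∈ S then P0 else 1 := by
      rw [Finset.prod_ite]
      simp
    rw [h2, ← Finset.prod_mul_distrib]
    calc _ ≤ ∏ _v : ι, Q ^ (B * J) := by
          apply Finset.prod_le_prod'
          intro v _
          split_ifs
          · rw [mul_comm]; exact hcol2
          · rw [mul_one]
      _ = _ := by simp
  calc _ ≤ (Fintype.piFinset (fun v : ι => if v ∈ S then col else univ)).card * P0 ^ S.card :=
        Nat.mul_le_mul_right _ hle
    _ ≤ _ := hprod
    _ = _ := by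
        rw [← pow_mul, ← pow_mul, ← pow_mul]
        congr 1
        ring

theorem gen_avgR {ι Pt : Type} [Fintype ι] [DecidableEq ι] [Fintype Pt] [Nonempty Pt]
    (gr : Pt → Finset ι) (f : Set ι → Prop) (hf : ∀ x, f x ↔ ∃ p, (gr p : Set ι) ⊆ x)
    (B J r e c M Q B' Kp P0 : ℕ) (hQ0 : 0 < Q) (hr : 64 * Q ≤ r) (hc : 1 ≤ c) (hJ : 2 * e < 2 ^ J)
    (hQ : P0 * (B * J) ≤ Q)
    (hB : (Fintype.card ι + 1) ^ (2 * e) * 4 ^ B' ≤ 4 ^ B)
    (hM : ∀ p, (gr p).card = M) (hPt : 2 * Fintype.card Pt ≤ P0 ^ M)
    (hbig : ∀ Y : Finset ι, e < Y.card → {p : Pt | Y ⊆ gr p}.ncard * Kp ≤ Fintype.card Pt)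
    (hind : ∀ Y : Finset ι, 1 ≤ Y.card → Y.card ≤ e →
      {p : Pt | Y ⊆ gr p}.ncard * (4 * r) ^ Y.card * c ≤ Fintype.card Pt)
    (S : ℕ) (hS1 : 1 ≤ S) (hS2 : 4 * c * S ≤ 4 ^ B') (hS3 : 12 * c * S * r ^ (2 * e) ≤ Kp) :
    ∃ (Ng : Type) (_ : Fintype Ng) (_ : Nonempty Ng) (neg : Ng → Set ι),
      (∀ ω, ¬ f (neg ω)) ∧
      ∀ (Bs : Set (Set ι → Bool)) (_ : ∀ b ∈ Bs, ∃ T : Finset ι, T.card ≤ e ∧
          LeafOn T (fun x => b x = true))
        (g : Set ι → Bool) (_ : MComp Bs S g),
        ((univ.filter (fun p : Pt => g (gr p : Set ι) = true)).card : ℚ) *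
            Fintype.card Ng * (2 * c) ≤
          ((univ.filter (fun ω : Ng => g (neg ω) = true)).card : ℚ) *
            Fintype.card Pt * (2 * c) +
            Fintype.card Ng * Fintype.card Pt := by
  classical
  have : NeZero Q := ⟨by omega⟩
  have hrpos : 0 < r := by omega
  have hBB : ((univ : Finset (Finset ι)).filter (fun Y => Y.card ≤ 2 * e)).card * 4 ^ B' ≤
      4 ^ B := (Nat.mul_le_mul_right _ (card_small_sets (2 * e))).trans hB
  -- the rejected random sets
  set Om := ((Q ^ Fintype.card ι) ^ J) ^ B with hOm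
  have hOmc : Fintype.card (Fin B → Fin J → ι → Fin Q) = Om := by
    rw [Fintype.card_fun, Fintype.card_fun, Fintype.card_fun, Fintype.card_fin, Fintype.card_fin,
      Fintype.card_fin]
  have hKp0 : 0 < Kp := by
    refine lt_of_lt_of_le ?_ hS3
    positivity
  have hP0 : 0 < P0 ^ M := by
    have h1 : 0 < Fintype.card Pt := Fintype.card_pos
    omega
  have hneg : 2 * {ω : Fin B → Fin J → ι → Fin Q | f (WB ω : Set ι)}.ncard ≤ Om := by
    have hsub : {ω : Fin B → Fin J → ι → Fin Q | f (WB ω : Set ι)} ⊆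
        ⋃ p ∈ (univ : Finset Pt), {ω | gr p ⊆ WB ω} := by
      intro ω hω
      obtain ⟨p, hp⟩ := (hf _).mp hω
      simp only [Set.mem_iUnion]
      exact ⟨p, mem_univ _, by simpa using hp⟩
    have h1 : {ω : Fin B → Fin J → ι → Fin Q | f (WB ω : Set ι)}.ncard ≤
        ∑ p : Pt, {ω : Fin B → Fin J → ι → Fin Q | gr p ⊆ WB ω}.ncard :=
      (Set.ncard_le_ncard hsub (Set.toFinite _)).trans (Finset.set_ncard_biUnion_le _ _)
    have h2 : ∀ p : Pt, {ω : Fin B → Fin J → ι → Fin Q | gr p ⊆ WB ω}.ncard * P0 ^ M ≤ Om := by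
      intro p
      have h3 := count_containsR (Q := Q) B J P0 hQ (gr p)
      rw [hM p] at h3
      exact h3
    have h3 : {ω : Fin B → Fin J → ι → Fin Q | f (WB ω : Set ι)}.ncard * P0 ^ M ≤
        Fintype.card Pt * Om := by
      calc _ ≤ (∑ p : Pt, {ω : Fin B → Fin J → ι → Fin Q | gr p ⊆ WB ω}.ncard) * P0 ^ M :=
            Nat.mul_le_mul_right _ h1
        _ ≤ ∑ p : Pt, Om := by
            rw [Finset.sum_mul]
            exact Finset.sum_le_sum (fun p _ => h2 p)
        _ = Fintype.card Pt * Om := by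
            rw [Finset.sum_const, Finset.card_univ, smul_eq_mul]
    refine Nat.le_of_mul_le_mul_right ?_ hP0
    calc _ = ({ω : Fin B → Fin J → ι → Fin Q | f (WB ω : Set ι)}.ncard * P0 ^ M) * 2 := by ring
      _ ≤ (Fintype.card Pt * Om) * 2 := Nat.mul_le_mul_right _ h3
      _ = (2 * Fintype.card Pt) * Om := by ring
      _ ≤ P0 ^ M * Om := Nat.mul_le_mul_right _ hPt
      _ = _ := by ring
  let Ng := {ω : Fin B → Fin J → ι → Fin Q // ¬ f (WB ω : Set ι)}
  have hNgc : Om ≤ 2 * Fintype.card Ng := by
    have h1 := Set.ncard_add_ncard_compl {ω : Fin B → Fin J → ι → Fin Q | f (WB ω : Set ι)}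
    rw [Nat.card_eq_fintype_card, hOmc] at h1
    have h2 : Fintype.card Ng = {ω : Fin B → Fin J → ι → Fin Q | f (WB ω : Set ι)}ᶜ.ncard := by
      rw [← Nat.card_eq_fintype_card, ← Nat.card_coe_set_eq]
      rfl
    omega
  have hOmpos : 0 < Om := by positivity
  have hNgpos : 0 < Fintype.card Ng := by omega
  refine ⟨Ng, inferInstance, Fintype.card_pos_iff.mp hNgpos, fun ω => (WB ω.1 : Set ι),
    fun ω => ω.2, ?_⟩
  intro Bs hBs g hg
  obtain ⟨t, op, a, b, val, o, ht, htop, hval, ho⟩ := mcomp_circ hg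
  have htS : t ≤ S := by rwa [max_eq_left hS1] at ht
  have hct : 4 * c * t ≤ 4 ^ B' := (Nat.mul_le_mul_left _ htS).trans hS2
  have hct3 : 12 * c * t * r ^ (2 * e) ≤ Kp :=
    (Nat.mul_le_mul_right _ (Nat.mul_le_mul_left _ htS)).trans hS3
  have hctq : (4 : ℚ) * c * t ≤ 4 ^ B' := by exact_mod_cast hct
  have h4e : (0 : ℚ) < 4 ^ B' := by positivity
  have hcq : (1 : ℚ) ≤ c := by exact_mod_cast hc
  set P := (univ.filter (fun p : Pt => g (gr p : Set ι) = true)).card with hP
  set W := (univ.filter (fun ω : Ng => g (WB ω.1 : Set ι) = true)).card with hW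
  have hPle : P ≤ Fintype.card Pt := by
    rw [hP, ← Finset.card_univ]
    exact Finset.card_filter_le _ _
  have hPset : ({p : Pt | val (gr p : Set ι) o} : Set _).ncard = P := by
    rw [hP, ← Set.ncard_coe_finset]
    congr 1
    ext p
    simp [ho]
  rcases spread_avgR (Q := Q) (fun (b : {b // b ∈ Bs}) x => b.1 x = true) B J r e B' Kp c hr hJ
    hBB (fun b => hBs b.1 b.2) (Pt := Pt) gr hbig hind op a b htop val hval o with h | h
  · -- true on most rejected sets
    have hWc : Fintype.card Ng - W ≤ {ω : Fin B → Fin J → ι → Fin Q |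
        ¬ val (WB ω : Set ι) o}.ncard := by
      have h1 : Fintype.card Ng - W =
          (univ.filter (fun ω : Ng => ¬ g (WB ω.1 : Set ι) = true)).card := by
        have := Finset.card_filter_add_card_filter_not (s := (univ : Finset Ng))
          (fun ω => g (WB ω.1 : Set ι) = true)
        rw [Finset.card_univ] at this
        omega
      rw [h1, ← Set.ncard_coe_finset]
      apply Set.ncard_le_ncard_of_injOn (fun ω : Ng => ω.1)
      · intro ω hω
        rw [Finset.mem_coe, Finset.mem_filter] at hω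
        show ¬ val _ o
        rw [ho]
        exact hω.2
      · intro ω _ ω' _ h
        exact Subtype.ext h
    have h2 : ((Fintype.card Ng : ℚ) - W) * 4 ^ B' ≤ t * (2 * Fintype.card Ng) := by
      have h3 : (Fintype.card Ng - W) * 4 ^ B' ≤ t * (2 * Fintype.card Ng) :=
        (Nat.mul_le_mul_right _ hWc).trans (h.trans (Nat.mul_le_mul_left _ hNgc))
      have hWle : W ≤ Fintype.card Ng := by
        rw [hW, ← Finset.card_univ]
        exact Finset.card_filter_le _ _
      have h4 : (((Fintype.card Ng - W) * 4 ^ B' : ℕ) : ℚ) ≤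
          ((t * (2 * Fintype.card Ng) : ℕ) : ℚ) := by exact_mod_cast h3
      rw [Nat.cast_mul, Nat.cast_sub hWle] at h4
      push_cast at h4
      exact h4
    have hNq : (0 : ℚ) < Fintype.card Ng := by exact_mod_cast hNgpos
    have h3 : ((Fintype.card Ng : ℚ) - W) * (2 * c) ≤ Fintype.card Ng := by
      refine le_of_mul_le_mul_right ?_ h4e
      calc ((Fintype.card Ng : ℚ) - W) * (2 * c) * 4 ^ B' =
            (((Fintype.card Ng : ℚ) - W) * 4 ^ B') * (2 * c) := by ring
        _ ≤ (t * (2 * Fintype.card Ng)) * (2 * c) :=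
            mul_le_mul_of_nonneg_right h2 (by positivity)
        _ = Fintype.card Ng * (4 * c * t) := by ring
        _ ≤ Fintype.card Ng * 4 ^ B' := mul_le_mul_of_nonneg_left hctq hNq.le
    have hPq : (P : ℚ) ≤ Fintype.card Pt := by exact_mod_cast hPle
    have hPt0 : (0 : ℚ) ≤ Fintype.card Pt := Nat.cast_nonneg _
    calc (P : ℚ) * Fintype.card Ng * (2 * c) ≤
          Fintype.card Pt * Fintype.card Ng * (2 * c) := by
          apply mul_le_mul_of_nonneg_right _ (by positivity)
          exact mul_le_mul_of_nonneg_right hPq hNq.le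
      _ = (W : ℚ) * Fintype.card Pt * (2 * c) +
          Fintype.card Pt * (((Fintype.card Ng : ℚ) - W) * (2 * c)) := by ring
      _ ≤ (W : ℚ) * Fintype.card Pt * (2 * c) +
          Fintype.card Pt * Fintype.card Ng := by
          have := mul_le_mul_of_nonneg_left h3 hPt0
          linarith
      _ = _ := by ring
  · -- false on most points
    obtain ⟨F, hF1, hF2⟩ := h
    have hPt0 : (0 : ℚ) ≤ Fintype.card Pt := Nat.cast_nonneg _
    have hsplit : P ≤ ({p : Pt | val (gr p : Set ι) o} \ F).ncard + F.ncard := by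
      rw [← hPset]
      refine le_trans (Set.ncard_le_ncard ?_ (Set.toFinite _)) (Set.ncard_union_le _ _)
      intro p hp
      by_cases hpF : p ∈ F
      · exact Or.inr hpF
      · exact Or.inl ⟨hp, hpF⟩
    have hF3 : (F.ncard : ℚ) * (6 * c) ≤ Fintype.card Pt := by
      have h1 : F.ncard * (6 * c) * Kp ≤ Fintype.card Pt * Kp := by
        calc F.ncard * (6 * c) * Kp = (F.ncard * Kp) * (6 * c) := by ring
          _ ≤ (t * (Fintype.card Pt * (2 * r ^ (2 * e)))) * (6 * c) := Nat.mul_le_mul_right _ hF2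
          _ = Fintype.card Pt * (12 * c * t * r ^ (2 * e)) := by ring
          _ ≤ Fintype.card Pt * Kp := Nat.mul_le_mul_left _ hct3
      have h2 := Nat.le_of_mul_le_mul_right h1 hKp0
      exact_mod_cast h2
    have h2 : (P : ℚ) * (2 * c) ≤ Fintype.card Pt := by
      have h3 : (P : ℚ) ≤ (({p : Pt | val (gr p : Set ι) o} \ F).ncard : ℚ) + F.ncard := by
        exact_mod_cast hsplit
      have h4 : (P : ℚ) * (2 * c) ≤ ((({p : Pt | val (gr p : Set ι) o} \ F).ncard : ℚ) +
          F.ncard) * (2 * c) := mul_le_mul_of_nonneg_right h3 (by positivity)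
      linarith
    have hW0 : (0 : ℚ) ≤ (W : ℚ) * Fintype.card Pt * (2 * c) := by positivity
    have hNq : (0 : ℚ) ≤ Fintype.card Ng := Nat.cast_nonneg _
    have h4 := mul_le_mul_of_nonneg_left h2 hNq
    calc (P : ℚ) * Fintype.card Ng * (2 * c) = Fintype.card Ng * (P * (2 * c)) := by ring
      _ ≤ Fintype.card Ng * Fintype.card Pt := h4
      _ ≤ _ := by linarith

end Pool.Agent.L5helper92.SE
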