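import Pool.Agent.L5helper92.KS.Hyper

/-! Hypergraphs with a linear number of edges in which even sets of edges that span almost all
vertices expand well. -/

namespace Pool.Agent.L5helper92.SE

open Finset Pool.Agent.L5helper92.KS

lemma term_bound2 (V M a g d y : ℕ) (hV : 0 < V) (hM : M ≤ 2 * V) (hga : g + 1 ≤ a) (hg : 1 ≤ g)
    (hd : 1 ≤ d) (hy : 1 ≤ y)
    (hcond : 24 * 3 ^ g * g * (d - 1) ^ (a - g - 1) ≤ d ^ (a - g - 1))
    (hE : d * (g * y) ≤ (d - 1) * V) :
    M.choose y * V.choose (g * y) * (g * y) ^ (a * y) * 4 ^ y ≤ V ^ (a * y) := by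
  obtain ⟨u, rfl⟩ : ∃ u, a = g + 1 + u := ⟨a - g - 1, by omega⟩
  have e1 : g + 1 + u - g - 1 = u := by omega
  rw [e1] at hcond
  have h1 : 24 * 3 ^ g * g * (g * y) ^ u ≤ V ^ u := by
    have hdu : 0 < d ^ u := by positivity
    refine Nat.le_of_mul_le_mul_right ?_ hdu
    calc 24 * 3 ^ g * g * (g * y) ^ u * d ^ u = 24 * 3 ^ g * g * (d * (g * y)) ^ u := by
          rw [mul_pow d]
          ring
      _ ≤ 24 * 3 ^ g * g * ((d - 1) * V) ^ u :=
          Nat.mul_le_mul_left _ (Nat.pow_le_pow_left hE u)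
      _ = (24 * 3 ^ g * g * (d - 1) ^ u) * V ^ u := by
          rw [mul_pow]
          ring
      _ ≤ d ^ u * V ^ u := Nat.mul_le_mul_right _ hcond
      _ = V ^ u * d ^ u := mul_comm _ _
  have h2 : 12 * 3 ^ g * M * g * (g * y) ^ u ≤ V * V ^ u := by
    calc 12 * 3 ^ g * M * g * (g * y) ^ u ≤ 12 * 3 ^ g * (2 * V) * g * (g * y) ^ u := by
          gcongr
      _ = V * (24 * 3 ^ g * g * (g * y) ^ u) := by ring
      _ ≤ V * V ^ u := Nat.mul_le_mul_left _ h1
  have hgy : 0 < g * y := Nat.mul_pos hg hy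
  have hpos : 0 < y ^ y * (g * y) ^ (g * y) := by positivity
  refine Nat.le_of_mul_le_mul_right ?_ hpos
  calc M.choose y * V.choose (g * y) * (g * y) ^ ((g + 1 + u) * y) * 4 ^ y *
        (y ^ y * (g * y) ^ (g * y))
      = (M.choose y * y ^ y) * (V.choose (g * y) * (g * y) ^ (g * y)) *
          (g * y) ^ ((g + 1 + u) * y) * 4 ^ y := by ring
    _ ≤ (3 ^ y * M ^ y) * (3 ^ (g * y) * V ^ (g * y)) * (g * y) ^ ((g + 1 + u) * y) * 4 ^ y :=
        Nat.mul_le_mul_right _ (Nat.mul_le_mul_right _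
          (Nat.mul_le_mul (choose_mul_pow_le M y) (choose_mul_pow_le V (g * y))))
    _ = (12 * 3 ^ g * M * g * (g * y) ^ u) ^ y * (V ^ (g * y) * (y ^ y * (g * y) ^ (g * y))) := by
        have e2 : (g * y) ^ ((g + 1 + u) * y) = (g * y) ^ (g * y) * ((g * y) ^ y * ((g * y) ^ u) ^ y) := by
          rw [← pow_mul, ← pow_add, ← pow_add]
          congr 1
          ring
        have e3 : (g * y) ^ y = g ^ y * y ^ y := mul_pow _ _ _
        have e4 : (12 * 3 ^ g * M * g * (g * y) ^ u) ^ y =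
            3 ^ y * 4 ^ y * 3 ^ (g * y) * M ^ y * g ^ y * ((g * y) ^ u) ^ y := by
          rw [mul_pow, mul_pow, mul_pow, mul_pow, ← pow_mul]
          have : (12 : ℕ) ^ y = 3 ^ y * 4 ^ y := by rw [← mul_pow]; norm_num
          rw [this]
        rw [e4, e2, e3]
        generalize ((g * y) ^ u) ^ y = X1
        generalize (g * y) ^ (g * y) = X2
        ring
    _ ≤ (V * V ^ u) ^ y * (V ^ (g * y) * (y ^ y * (g * y) ^ (g * y))) :=
        Nat.mul_le_mul_right _ (Nat.pow_le_pow_left h2 y)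
    _ = V ^ ((g + 1 + u) * y) * (y ^ y * (g * y) ^ (g * y)) := by
        rw [← mul_assoc]
        congr 1
        rw [mul_pow, ← pow_mul, ← pow_add, ← pow_add]
        congr 1
        ring

theorem exists_hyper2 (V M a g d E : ℕ) (hV : 0 < V) (hM : M ≤ 2 * V) (hga : g + 1 ≤ a)
    (hg : 1 ≤ g) (hd : 1 ≤ d)
    (hcond : 24 * 3 ^ g * g * (d - 1) ^ (a - g - 1) ≤ d ^ (a - g - 1))
    (hE : d * (g * E) ≤ (d - 1) * V) :
    ∃ H : Fin M → Fin a → Fin V, ∀ T : Finset (Fin M), 1 ≤ T.card → T.card ≤ E →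
      g * T.card ≤ (nb H T).card := by
  classical
  by_contra hcon
  push Not at hcon
  have hσ2 : ∀ t, t ≤ E → g * t ≤ V := by
    intro t ht
    have h1 : d * (g * t) ≤ d * V := by
      calc d * (g * t) ≤ d * (g * E) := Nat.mul_le_mul_left _ (Nat.mul_le_mul_left _ ht)
        _ ≤ (d - 1) * V := hE
        _ ≤ d * V := Nat.mul_le_mul_right _ (Nat.sub_le _ _)
    exact Nat.le_of_mul_le_mul_left h1 hd
  -- cover
  have hcover : (univ : Finset (Fin M → Fin a → Fin V)) ⊆
      (Finset.Ioc 0 E).biUnion (fun t => ((univ : Finset (Fin M)).powersetCard t).biUnion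
        (fun T => ((univ : Finset (Fin V)).powersetCard (g * t)).biUnion (fun S =>
          (univ : Finset (Fin M → Fin a → Fin V)).filter (fun H => ∀ i ∈ T, ∀ j, H i j ∈ S)))) := by
    intro H _
    obtain ⟨T, hT1, hT2, hT3⟩ := hcon H
    rw [mem_biUnion]
    refine ⟨T.card, by rw [mem_Ioc]; omega, ?_⟩
    rw [mem_biUnion]
    refine ⟨T, by rw [mem_powersetCard]; exact ⟨subset_univ _, rfl⟩, ?_⟩
    obtain ⟨S, hS1, hS2⟩ : ∃ S : Finset (Fin V), nb H T ⊆ S ∧ S.card = g * T.card :=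
      Finset.exists_superset_card_eq hT3.le (by simpa using hσ2 _ hT2)
    rw [mem_biUnion]
    refine ⟨S, by rw [mem_powersetCard]; exact ⟨subset_univ _, hS2⟩, ?_⟩
    rw [mem_filter]
    exact ⟨mem_univ _, fun i hi j => hS1 (mem_nb.mpr ⟨i, hi, j, rfl⟩)⟩
  have h1 : (V ^ a) ^ M ≤ ∑ t ∈ Finset.Ioc 0 E,
      M.choose t * (V.choose (g * t) * ((g * t) ^ (a * t) * V ^ (a * (M - t)))) := by
    have h0 := Finset.card_le_card hcover
    rw [Finset.card_univ, Fintype.card_fun, Fintype.card_fun, Fintype.card_fin, Fintype.card_fin,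
      Fintype.card_fin] at h0
    refine h0.trans (Finset.card_biUnion_le.trans (Finset.sum_le_sum (fun t _ => ?_)))
    refine Finset.card_biUnion_le.trans ?_
    have h2 : ∀ T ∈ (univ : Finset (Fin M)).powersetCard t,
        (((univ : Finset (Fin V)).powersetCard (g * t)).biUnion (fun S =>
          (univ : Finset (Fin M → Fin a → Fin V)).filter
            (fun H => ∀ i ∈ T, ∀ j, H i j ∈ S))).card ≤
        V.choose (g * t) * ((g * t) ^ (a * t) * V ^ (a * (M - t))) := by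
      intro T hT
      have hTc := (mem_powersetCard.mp hT).2
      refine Finset.card_biUnion_le.trans ?_
      have h3 : ∀ S ∈ (univ : Finset (Fin V)).powersetCard (g * t),
          ((univ : Finset (Fin M → Fin a → Fin V)).filter
            (fun H => ∀ i ∈ T, ∀ j, H i j ∈ S)).card ≤ (g * t) ^ (a * t) * V ^ (a * (M - t)) := by
        intro S hS
        rw [card_inside, hTc, (mem_powersetCard.mp hS).2]
      refine (Finset.sum_le_sum h3).trans (le_of_eq ?_)
      rw [Finset.sum_const, Finset.card_powersetCard, Finset.card_univ, Fintype.card_fin,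
        smul_eq_mul]
    refine (Finset.sum_le_sum h2).trans (le_of_eq ?_)
    rw [Finset.sum_const, Finset.card_powersetCard, Finset.card_univ, Fintype.card_fin,
      smul_eq_mul]
  have h2 : ∀ t ∈ Finset.Ioc 0 E,
      ((M.choose t * (V.choose (g * t) * ((g * t) ^ (a * t) * V ^ (a * (M - t)))) : ℕ) : ℚ) ≤
        ((V ^ a) ^ M : ℕ) * (1 / 4) ^ t := by
    intro t ht
    rw [mem_Ioc] at ht
    rcases Nat.lt_or_ge M t with hMt | hMt
    · rw [Nat.choose_eq_zero_of_lt hMt, zero_mul]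
      push_cast
      positivity
    have h3 := term_bound2 V M a g d t hV hM hga hg hd (by omega) hcond
      (le_trans (Nat.mul_le_mul_left _ (Nat.mul_le_mul_left _ ht.2)) hE)
    have h4 : M.choose t * (V.choose (g * t) * ((g * t) ^ (a * t) * V ^ (a * (M - t)))) * 4 ^ t ≤
        (V ^ a) ^ M := by
      calc _ = (M.choose t * V.choose (g * t) * (g * t) ^ (a * t) * 4 ^ t) * V ^ (a * (M - t)) := by
            ring
        _ ≤ V ^ (a * t) * V ^ (a * (M - t)) := Nat.mul_le_mul_right _ h3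
        _ = (V ^ a) ^ M := by
            rw [← pow_add, ← mul_add, Nat.add_sub_cancel' hMt, pow_mul]
    have h5 : (((M.choose t * (V.choose (g * t) * ((g * t) ^ (a * t) * V ^ (a * (M - t)))) : ℕ)) : ℚ) *
        4 ^ t ≤ ((V ^ a) ^ M : ℕ) := by exact_mod_cast h4
    rw [one_div, inv_pow, ← div_eq_mul_inv, le_div_iff₀ (by positivity)]
    exact h5
  have h3 : (((V ^ a) ^ M : ℕ) : ℚ) ≤ ((V ^ a) ^ M : ℕ) * (1 / 3) := by
    calc (((V ^ a) ^ M : ℕ) : ℚ) ≤ ((∑ t ∈ Finset.Ioc 0 E,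
          M.choose t * (V.choose (g * t) * ((g * t) ^ (a * t) * V ^ (a * (M - t)))) : ℕ) : ℚ) := by
          exact_mod_cast h1
      _ = ∑ t ∈ Finset.Ioc 0 E,
          ((M.choose t * (V.choose (g * t) * ((g * t) ^ (a * t) * V ^ (a * (M - t)))) : ℕ) : ℚ) := by
          rw [Nat.cast_sum]
      _ ≤ ∑ t ∈ Finset.Ioc 0 E, (((V ^ a) ^ M : ℕ) : ℚ) * (1 / 4) ^ t := Finset.sum_le_sum h2
      _ = (((V ^ a) ^ M : ℕ) : ℚ) * (1 / 3 * ((1 / 4) ^ 0 - (1 / 4) ^ E)) := by
          rw [← Finset.mul_sum, Pool.Agent.H560R2.geom_bound 0 E (Nat.zero_le _)]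
      _ ≤ _ := by
          apply mul_le_mul_of_nonneg_left _ (Nat.cast_nonneg _)
          have : (0 : ℚ) ≤ (1 / 4) ^ E := by positivity
          rw [pow_zero]
          linarith
  have h4 : (0 : ℚ) < ((V ^ a) ^ M : ℕ) := by
    have : 0 < (V ^ a) ^ M := by positivity
    exact_mod_cast this
  linarith

end Pool.Agent.L5helper92.SE
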