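import Pool.Agent.H520R2.NMDefs

/-! Renaming the inputs of a circuit. -/

namespace Pool.Agent.L5helper92.SE

open Pool.Agent.H520R2.NM

variable {ι κ : Type}

/-- rename the inputs of a wire -/
def mapW (f : ι → κ) {n : ℕ} : Wire ι n → Wire κ n
  | .input i => .input (f i)
  | .const b => .const b
  | .gate j => .gate j

/-- rename the inputs of a circuit -/
def mapC (f : ι → κ) : {n : ℕ} → Circuit ι n → Circuit κ n
  | _, .empty => .empty
  | _, .and C a b => .and (mapC f C) (mapW f a) (mapW f b)
  | _, .or C a b => .or (mapC f C) (mapW f a) (mapW f b)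
  | _, .any C w u G a => .any (mapC f C) w u G (fun i => mapW f (a i))

theorem mapW_eval (f : ι → κ) {n : ℕ} (a : Wire ι n) (x : κ → Bool) (v : Fin n → Bool) :
    (mapW f a).eval x v = a.eval (fun i => x (f i)) v := by
  cases a <;> rfl

theorem mapC_vals (f : ι → κ) {n : ℕ} (C : Circuit ι n) (x : κ → Bool) :
    (mapC f C).vals x = C.vals (fun i => x (f i)) := by
  induction C with
  | empty => rfl
  | and C a b ih => simp only [mapC, Circuit.vals, ih, mapW_eval]
  | or C a b ih => simp only [mapC, Circuit.vals, ih, mapW_eval]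
  | any C w u G a ih => simp only [mapC, Circuit.vals, ih, mapW_eval]

theorem mapC_size (f : ι → κ) {n : ℕ} (C : Circuit ι n) : (mapC f C).size = C.size := by
  induction C with
  | empty => rfl
  | and C a b ih => simp [mapC, Circuit.size, ih]
  | or C a b ih => simp [mapC, Circuit.size, ih]
  | any C w u G a ih => simpa [mapC, Circuit.size] using ih

theorem mapC_fanins (f : ι → κ) {n : ℕ} (C : Circuit ι n) : (mapC f C).fanins = C.fanins := by
  induction C with
  | empty => rfl
  | and C a b ih => simpa [mapC, Circuit.fanins] using ih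
  | or C a b ih => simpa [mapC, Circuit.fanins] using ih
  | any C w u G a ih => simp [mapC, Circuit.fanins, ih]

theorem reindex {n : ℕ} (C : Circuit ι n) (out : Wire ι n) (f : ι → κ) :
    ∃ (C' : Circuit κ n) (out' : Wire κ n), C'.size = C.size ∧ C'.fanins = C.fanins ∧
      ∀ x : κ → Bool, out'.eval x (C'.vals x) =
        out.eval (fun i => x (f i)) (C.vals (fun i => x (f i))) :=
  ⟨mapC f C, mapW f out, mapC_size f C, mapC_fanins f C, fun x => by
    rw [mapW_eval, mapC_vals]⟩

end Pool.Agent.L5helper92.SE
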