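import Pool.Agent.L5helper92.SE.Defs
import Pool.Agent.L5helper92.SE.Gen
import Pool.Agent.L5helper92.SE.Hyper2
import Pool.Agent.L5helper92.SE.Reindex
import Pool.Agent.L5helper92.KS.Expl

/-! Binary encoding. -/

namespace Pool.Agent.L5helper92.SE

open Finset Pool.Agent.H520R2 Pool.Agent.H520R2.NM Pool.Agent.H560R2 Pool.Agent.L5helper92.KS

/-- bits of a number below `2 ^ β` -/
def bitsE (β : ℕ) : Fin (2 ^ β) ≃ (Fin β → Bool) :=
  (dig β 2).trans (Equiv.arrowCongr (Equiv.refl _) finTwoEquiv)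

section

variable {V M a β σ n : ℕ}

/-- the clause that forbids the element `p` in the copy `j` -/
def clause (H : Fin M → Fin a → Fin V) (φ : (Fin V × Fin β) ⊕ Fin σ ↪ Fin n)
    (l : Fin (2 ^ σ) × El M a (2 ^ β)) : Finset (Fin n × Bool) :=
  univ.image (fun tb : Fin a × Fin β =>
    (φ (Sum.inl (H l.2.1 tb.1, tb.2)), !(bitsE β (l.2.2 tb.1) tb.2))) ∪
  univ.image (fun r : Fin σ => (φ (Sum.inr r), !(bitsE σ l.1 r)))

lemma card_clause (H : Fin M → Fin a → Fin V) (φ : (Fin V × Fin β) ⊕ Fin σ ↪ Fin n)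
    (l : Fin (2 ^ σ) × El M a (2 ^ β)) : (clause H φ l).card ≤ a * β + σ := by
  unfold clause
  refine (card_union_le _ _).trans ?_
  have h1 : (univ.image (fun tb : Fin a × Fin β =>
    (φ (Sum.inl (H l.2.1 tb.1, tb.2)), !(bitsE β (l.2.2 tb.1) tb.2)))).card ≤ a * β := by
    refine card_image_le.trans ?_
    simp
  have h2 : (univ.image (fun r : Fin σ => (φ (Sum.inr r), !(bitsE σ l.1 r)))).card ≤ σ := by
    refine card_image_le.trans ?_
    simp
  omega

lemma bool_ne_iff {x y : Bool} : x = !y ↔ ¬ x = y := by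
  cases x <;> cases y <;> simp

lemma not_holds_clause (H : Fin M → Fin a → Fin V) (φ : (Fin V × Fin β) ⊕ Fin σ ↪ Fin n)
    (l : Fin (2 ^ σ) × El M a (2 ^ β)) (z : Fin n → Bool) :
    ¬ Holds z (clause H φ l) ↔
      ((∀ t, (bitsE β).symm (fun b => z (φ (Sum.inl (H l.2.1 t, b)))) = l.2.2 t) ∧
        (bitsE σ).symm (fun r => z (φ (Sum.inr r))) = l.1) := by
  have h1 : ¬ Holds z (clause H φ l) ↔
      ((∀ t b, z (φ (Sum.inl (H l.2.1 t, b))) = bitsE β (l.2.2 t) b) ∧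
        ∀ r, z (φ (Sum.inr r)) = bitsE σ l.1 r) := by
    unfold Holds clause
    constructor
    · intro h
      constructor
      · intro t b
        by_contra hne
        apply h
        refine ⟨_, mem_union_left _ (mem_image_of_mem _ (mem_univ (t, b))), ?_⟩
        exact bool_ne_iff.mpr hne
      · intro r
        by_contra hne
        apply h
        refine ⟨_, mem_union_right _ (mem_image_of_mem _ (mem_univ r)), ?_⟩
        exact bool_ne_iff.mpr hne
    · rintro ⟨h1, h2⟩ ⟨x, hx, hz⟩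
      rw [mem_union, mem_image, mem_image] at hx
      rcases hx with ⟨⟨t, b⟩, -, rfl⟩ | ⟨r, -, rfl⟩
      · exact bool_ne_iff.mp hz (h1 t b)
      · exact bool_ne_iff.mp hz (h2 r)
  rw [h1]
  constructor
  · rintro ⟨h1, h2⟩
    refine ⟨fun t => ?_, ?_⟩
    · rw [Equiv.symm_apply_eq]
      funext b
      exact h1 t b
    · rw [Equiv.symm_apply_eq]
      funext r
      exact h2 r
  · rintro ⟨h1, h2⟩
    refine ⟨fun t b => ?_, fun r => ?_⟩
    · have := h1 t
      rw [Equiv.symm_apply_eq] at this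
      exact congrFun this b
    · rw [Equiv.symm_apply_eq] at h2
      exact congrFun h2 r

/-- index type of the list -/
abbrev LL (M a β σ : ℕ) : Type := Fin (2 ^ σ) × El M a (2 ^ β)

open Classical in
/-- absence bits -/
noncomputable def EF (M a β σ : ℕ) (y : Fin (2 ^ σ) → Set (El M a (2 ^ β))) : LL M a β σ → Bool :=
  fun l => decide (l.2 ∈ y l.1)

lemma EF_true {y : Fin (2 ^ σ) → Set (El M a (2 ^ β))} {l : LL M a β σ} :
    EF M a β σ y l = true ↔ l.2 ∈ y l.1 := by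
  simp [EF]

lemma EF_mono (y y' : Fin (2 ^ σ) → Set (El M a (2 ^ β)))
    (h : ∀ j, y j ⊆ y' j) : EF M a β σ y ≤ EF M a β σ y' := by
  intro l
  rcases hb : EF M a β σ y l with _ | _
  · exact Bool.false_le _
  · rw [EF_true] at hb
    have : EF M a β σ y' l = true := by
      rw [EF_true]
      exact h l.1 hb
    rw [this]

/-- the selected clauses are satisfiable; absence bits -/
def RL (H : Fin M → Fin a → Fin V) (φ : (Fin V × Fin β) ⊕ Fin σ ↪ Fin n)
    (x : LL M a β σ → Bool) : Prop :=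
  ∃ z : Fin n → Bool, ∀ l, x l = false → Holds z (clause H φ l)

theorem EF_sat (H : Fin M → Fin a → Fin V) (φ : (Fin V × Fin β) ⊕ Fin σ ↪ Fin n)
    (y : Fin (2 ^ σ) → Set (El M a (2 ^ β))) :
    RL H φ (EF M a β σ y) ↔ ∃ j, fC H (y j) := by
  classical
  unfold RL
  constructor
  · rintro ⟨z, hz⟩
    let ζ : Fin V → Fin (2 ^ β) := fun v => (bitsE β).symm (fun b => z (φ (Sum.inl (v, b))))
    let j0 : Fin (2 ^ σ) := (bitsE σ).symm (fun r => z (φ (Sum.inr r)))
    refine ⟨j0, ζ, fun i => ?_⟩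
    by_contra hcon
    have h1 := hz (j0, (i, fun t => ζ (H i t))) (by
      rw [← Bool.not_eq_true, EF_true]
      exact hcon)
    have h2 := (not_holds_clause H φ (j0, (i, fun t => ζ (H i t))) z).mpr ⟨fun t => rfl, rfl⟩
    exact h2 h1
  · rintro ⟨j, ζ, hζ⟩
    let val : (Fin V × Fin β) ⊕ Fin σ → Bool := Sum.elim (fun p => bitsE β (ζ p.1) p.2)
      (fun r => bitsE σ j r)
    let z : Fin n → Bool := Function.extend φ val (fun _ => false)
    have hz : ∀ p, z (φ p) = val p := fun p => φ.injective.extend_apply _ _ p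
    refine ⟨z, fun l hl => ?_⟩
    by_contra hcon
    rw [not_holds_clause] at hcon
    obtain ⟨h1, h2⟩ := hcon
    have e1 : ∀ v, (bitsE β).symm (fun b => z (φ (Sum.inl (v, b)))) = ζ v := by
      intro v
      rw [Equiv.symm_apply_eq]
      funext b
      rw [hz]
      rfl
    have e2 : (bitsE σ).symm (fun r => z (φ (Sum.inr r))) = j := by
      rw [Equiv.symm_apply_eq]
      funext r
      rw [hz]
      rfl
    rw [e2] at h2
    have h3 : l.2.2 = fun t => ζ (H l.2.1 t) := by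
      funext t
      rw [← h1 t, e1]
    have h4 : l.2 ∈ y l.1 := by
      rw [← h2]
      have h5 : l.2 = (l.2.1, fun t => ζ (H l.2.1 t)) := Prod.ext_iff.mpr ⟨rfl, h3⟩
      rw [h5]
      exact hζ _
    rw [← Bool.not_eq_true, EF_true] at hl
    exact hl h4

/-- the base functions of a block are narrow -/
theorem EF_narrow (e : ℕ) (he : 1 ≤ e) (y : Fin (2 ^ σ) → Set (El M a (2 ^ β)))
    (J : Fin (2 ^ σ)) :
    ∀ γ ∈ blockBase (EF M a β σ) y J,
      ∃ T : Finset (El M a (2 ^ β)), T.card ≤ e ∧ LeafOn T (fun x => γ x = true) := by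
  classical
  rintro _ ⟨γ, hγ, rfl⟩
  rcases hγ with ⟨c, rfl⟩ | ⟨l, rfl⟩
  · exact ⟨∅, by simp, fun x x' _ h => h⟩
  · refine ⟨{l.2}, by simpa using he, ?_⟩
    intro x x' hx h
    simp only at h ⊢
    rw [EF_true] at h ⊢
    by_cases hj : l.1 = J
    · rw [hj, Function.update_self] at h ⊢
      exact hx _ (mem_singleton_self _) h
    · rw [Function.update_of_ne hj] at h ⊢
      exact h

/-- the spread condition from expansion -/
lemma hbig_base {q g e Kp : ℕ} (H : Fin M → Fin a → Fin V) (hq0 : 0 < q)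
    (hH : ∀ T : Finset (Fin M), 1 ≤ T.card → T.card ≤ e + 1 → g * T.card ≤ (nb H T).card)
    (hK : Kp ≤ q ^ (g * (e + 1))) :
    ∀ Y : Finset (El M a q), e < Y.card →
      {z : Fin V → Fin q | Y ⊆ gr H z}.ncard * Kp ≤ Fintype.card (Fin V → Fin q) := by
  classical
  intro Y hY
  rw [Fintype.card_fun, Fintype.card_fin, Fintype.card_fin]
  obtain ⟨Y', hY'Y, hY'c⟩ := Finset.exists_subset_card_eq (show e + 1 ≤ Y.card by omega)
  have hsub : {z : Fin V → Fin q | Y ⊆ gr H z} ⊆ {z : Fin V → Fin q | Y' ⊆ gr H z} :=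
    fun z hz => hY'Y.trans hz
  have hle := Set.ncard_le_ncard hsub (Set.toFinite _)
  rcases Set.eq_empty_or_nonempty {z : Fin V → Fin q | Y' ⊆ gr H z} with h | ⟨z0, hz0⟩
  · rw [h, Set.ncard_empty] at hle
    have : {z : Fin V → Fin q | Y ⊆ gr H z}.ncard = 0 := by omega
    rw [this]
    simp
  have hz0' : Y' ⊆ gr H z0 := hz0
  have hT : (Y'.image Prod.fst).card = Y'.card := by
    apply card_image_of_injOn
    intro p hp p' hp' h
    have h1 := mem_gr.mp (hz0' hp)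
    have h2 := mem_gr.mp (hz0' hp')
    have h' : p.1 = p'.1 := h
    apply Prod.ext h'
    rw [← h1, ← h2, h']
  have h1 := hH (Y'.image Prod.fst) (by omega) (by omega)
  rw [hT, hY'c] at h1
  calc _ ≤ {z : Fin V → Fin q | Y' ⊆ gr H z}.ncard * q ^ (nb H (Y'.image Prod.fst)).card := by
        apply Nat.mul_le_mul hle
        exact hK.trans (Nat.pow_le_pow_right hq0 h1)
    _ ≤ q ^ V := count_gr H Y'

lemma hind_base2 {q g e r c : ℕ} (H : Fin M → Fin a → Fin V) (hq0 : 0 < q)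
    (hH : ∀ T : Finset (Fin M), 1 ≤ T.card → T.card ≤ e + 1 → g * T.card ≤ (nb H T).card)
    (hq : 4 * r * c ≤ q ^ g) :
    ∀ Y : Finset (El M a q), 1 ≤ Y.card → Y.card ≤ e →
      {z : Fin V → Fin q | Y ⊆ gr H z}.ncard * (4 * r) ^ Y.card * c ≤
        Fintype.card (Fin V → Fin q) := by
  classical
  intro Y hY1 hY2
  rw [Fintype.card_fun, Fintype.card_fin, Fintype.card_fin]
  rcases Set.eq_empty_or_nonempty {z : Fin V → Fin q | Y ⊆ gr H z} with h | ⟨z0, hz0⟩
  · rw [h]; simp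
  have hz0' : Y ⊆ gr H z0 := hz0
  have hT : (Y.image Prod.fst).card = Y.card := by
    apply card_image_of_injOn
    intro p hp p' hp' h
    have h1 := mem_gr.mp (hz0' hp)
    have h2 := mem_gr.mp (hz0' hp')
    have h' : p.1 = p'.1 := h
    apply Prod.ext h'
    rw [← h1, ← h2, h']
  have h1 := hH (Y.image Prod.fst) (by omega) (by omega)
  rw [hT] at h1
  have h2 : (4 * r) ^ Y.card * c ≤ q ^ (nb H (Y.image Prod.fst)).card := by
    calc (4 * r) ^ Y.card * c ≤ (4 * r) ^ Y.card * c ^ Y.card :=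
          Nat.mul_le_mul_left _ (Nat.le_self_pow (by omega) c)
      _ = (4 * r * c) ^ Y.card := by rw [← mul_pow (4 * r) c]
      _ ≤ (q ^ g) ^ Y.card := Nat.pow_le_pow_left hq _
      _ = q ^ (g * Y.card) := by rw [← pow_mul]
      _ ≤ _ := Nat.pow_le_pow_right hq0 h1
  calc _ = {z : Fin V → Fin q | Y ⊆ gr H z}.ncard * ((4 * r) ^ Y.card * c) := by ring
    _ ≤ {z : Fin V → Fin q | Y ⊆ gr H z}.ncard * q ^ (nb H (Y.image Prod.fst)).card :=
        Nat.mul_le_mul_left _ h2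
    _ ≤ q ^ V := count_gr H Y

/-- the parameters -/
structure Par2 (V a β σ n g d e B J c S : ℕ) : Prop where
  hg : 1 ≤ g
  hga : g + 1 ≤ a
  hd : 1 ≤ d
  hV : 0 < V
  hcond : 24 * 3 ^ g * g * (d - 1) ^ (a - g - 1) ≤ d ^ (a - g - 1)
  hE : d * (g * (e + 1)) ≤ (d - 1) * V
  hB0 : 0 < B
  hJ0 : 0 < J
  hc : 1 ≤ c
  he : 1 ≤ e
  hJ : 2 * e < 2 ^ J
  hB : ((V + 1) * (2 ^ β) ^ a + 1) ^ (2 * e) * 4 ^ n ≤ 4 ^ B
  hβ : 1 ≤ β
  hq : 4 * (64 * (2 ^ β * (B * J))) * c ≤ (2 ^ β) ^ g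
  hn : V * β + σ ≤ n
  hS1 : 1 ≤ S
  hS2 : 4 * c * S ≤ 4 ^ n
  hS3 : 12 * c * S * (64 * (2 ^ β * (B * J))) ^ (2 * e) ≤ (2 ^ β) ^ (g * (e + 1))

theorem explicit2 {g d e B J c S : ℕ} (P : Par2 V a β σ n g d e B J c S) :
    ∃ (cl : Fin (2 ^ σ * ((V + 1) * (2 ^ β) ^ a)) → Finset (Fin n × Bool)),
      (∀ i, (cl i).card ≤ a * β + σ) ∧
      ∃ (Λ : Type) (_ : Fintype Λ) (_ : Nonempty Λ)
        (x : Λ → Fin (2 ^ σ * ((V + 1) * (2 ^ β) ^ a)) → Bool),
      ∀ (N : ℕ) (C : Circuit (Fin (2 ^ σ * ((V + 1) * (2 ^ β) ^ a))) N)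
        (out : Wire (Fin (2 ^ σ * ((V + 1) * (2 ^ β) ^ a))) N),
        C.size + C.fanins.sum ≤ S → c * (C.fanins.map (· + 1)).prod ≤ 2 ^ σ →
        2 * c * {l : Λ | (out.eval (x l) (C.vals (x l)) = true ↔ ¬ SatList cl (x l))}.ncard <
          (c + 2) * Fintype.card Λ := by
  classical
  obtain ⟨H, hH⟩ := exists_hyper2 V (V + 1) a g d (e + 1) P.hV (by have := P.hV; omega) P.hga P.hg
    P.hd P.hcond P.hE
  have hcard : Fintype.card ((Fin V × Fin β) ⊕ Fin σ) ≤ Fintype.card (Fin n) := by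
    rw [Fintype.card_sum, Fintype.card_prod, Fintype.card_fin, Fintype.card_fin, Fintype.card_fin,
      Fintype.card_fin]
    exact P.hn
  obtain ⟨φ⟩ := Function.Embedding.nonempty_of_card_le hcard
  have hq0 : 0 < 2 ^ β := by positivity
  have hq2 : 2 ≤ 2 ^ β := by
    calc 2 = 2 ^ 1 := rfl
      _ ≤ 2 ^ β := Nat.pow_le_pow_right (by norm_num) P.hβ
  have : Nonempty (Fin V → Fin (2 ^ β)) := ⟨fun _ => ⟨0, hq0⟩⟩
  set Q := 2 ^ β * (B * J) with hQ
  have hQ0 : 0 < Q := Nat.mul_pos hq0 (Nat.mul_pos P.hB0 P.hJ0)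
  have hEl : Fintype.card (El (V + 1) a (2 ^ β)) = (V + 1) * (2 ^ β) ^ a := by
    rw [Fintype.card_prod, Fintype.card_fun, Fintype.card_fin, Fintype.card_fin, Fintype.card_fin]
  obtain ⟨Ng, i1, i2, neg, h1, h2⟩ := gen_avgR (Pt := Fin V → Fin (2 ^ β)) (gr H) (fC H) (fC_iff H)
    B J (64 * Q) e c (V + 1) Q n ((2 ^ β) ^ (g * (e + 1))) (2 ^ β) hQ0 le_rfl P.hc P.hJ le_rfl
    (by rw [hEl]; exact P.hB) (card_gr H)
    (by
      rw [Fintype.card_fun, Fintype.card_fin, Fintype.card_fin, pow_succ, mul_comm]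
      exact Nat.mul_le_mul_left _ hq2)
    (hbig_base H hq0 hH le_rfl) (hind_base2 H hq0 hH P.hq) S P.hS1 P.hS2 P.hS3
  have hM : 0 < V + 1 := by omega
  obtain ⟨Λ, j1, j2, x, hx⟩ := hard_dist (2 ^ σ) (by positivity)
    (fun z : Fin V → Fin (2 ^ β) => (gr H z : Set (El (V + 1) a (2 ^ β)))) neg c S
    (EF (V + 1) a β σ)
    EF_mono (fC H) (fun z => (fC_iff H _).mpr ⟨z, subset_rfl⟩) h1
    (by rintro ⟨z, hz⟩; exact hz ⟨0, hM⟩)
    (RL H φ)
    (EF_sat H φ) (fun z J g hg => h2 _ (EF_narrow e P.he z J) g hg)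
  -- reindexing
  have hcardL : Fintype.card (LL (V + 1) a β σ) = 2 ^ σ * ((V + 1) * (2 ^ β) ^ a) := by
    rw [Fintype.card_prod, Fintype.card_fin, hEl]
  let eL : LL (V + 1) a β σ ≃ Fin (2 ^ σ * ((V + 1) * (2 ^ β) ^ a)) :=
    Fintype.equivFinOfCardEq hcardL
  refine ⟨fun i => clause H φ (eL.symm i), fun i => card_clause H φ _, Λ, j1, j2,
    fun l i => !(x l (eL.symm i)), ?_⟩
  intro N C out hS hc
  obtain ⟨C', out', hC'1, hC'2, hC'3⟩ := reindex (dualC C) (dualW out) eL.symm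
  have h3 := hx N C' out' (by rw [hC'1, hC'2, dualC_size, dualC_fanins]; exact hS)
    (by rw [hC'2, dualC_fanins]; exact hc)
  refine lt_of_le_of_lt ?_ h3
  apply Nat.mul_le_mul_left
  rw [← Set.ncard_coe_finset]
  apply Set.ncard_le_ncard _ (Set.toFinite _)
  intro l hl
  rw [mem_coe, mem_filter]
  refine ⟨mem_univ _, ?_⟩
  rw [hC'3, dual_out]
  have hl' : (out.eval (fun i => !(x l (eL.symm i))) (C.vals (fun i => !(x l (eL.symm i)))) = true ↔
    ¬ SatList (fun i => clause H φ (eL.symm i)) (fun i => !(x l (eL.symm i)))) := hl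
  have hSat : SatList (fun i => clause H φ (eL.symm i)) (fun i => !(x l (eL.symm i))) ↔
      RL H φ (x l) := by
    unfold SatList RL
    apply exists_congr
    intro z
    constructor
    · intro h l' hl'
      have h5 : (!(x l (eL.symm (eL l')))) = true := by rw [Equiv.symm_apply_apply, hl']; rfl
      have := h (eL l') h5
      simp only [Equiv.symm_apply_apply] at this
      exact this
    · intro h i hi
      apply h
      simpa using hi
  show (!(out.eval (fun i => !(x l (eL.symm i))) (C.vals (fun i => !(x l (eL.symm i)))))) = true ↔ _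
  rw [Bool.not_eq_true', ← Bool.not_eq_true, hl', not_not, hSat]

end

end Pool.Agent.L5helper92.SE
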