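import Pool.Agent.L5helper92.SE.Asym
import Pool.Agent.L5helper92.KS.Fin

/-! Randomised circuits. -/

namespace Pool.Agent.L5helper92.SE

open Filter Finset Pool.Agent.H520R2.NM

theorem main_seth_both (δ : ℝ) (hδ : 0 < δ) (hδ1 : δ < 1) (K : ℕ) :
    ∃ D : ℕ, ∀ᶠ n : ℕ in atTop, ∃ (m : ℕ) (cl : Fin m → Finset (Fin n × Bool)),
      n ≤ m ∧ m ≤ n ^ D ∧ (∀ i, (cl i).card ≤ D * Nat.log 2 n) ∧
      (∃ (Λ : Type) (_ : Fintype Λ) (_ : Nonempty Λ) (x : Λ → Fin m → Bool),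
        ∀ (N : ℕ) (C : Circuit (Fin m) N) (out : Wire (Fin m) N),
          (((C.fanins.map (· + 1)).prod : ℕ) : ℝ) ≤ (m : ℝ) ^ (1 - δ) →
          ((C.size + C.fanins.sum : ℕ) : ℝ) ≤ 2 ^ ((1 - δ) * n) →
          ({l : Λ | (out.eval (x l) (C.vals (x l)) = true ↔ ¬ SatList cl (x l))}.ncard : ℝ) <
            (1 / 2 + 1 / (n : ℝ) ^ K) * Fintype.card Λ) ∧
      ∀ (Ω : Type) [Fintype Ω] (p : Ω → ℝ), (∀ r, 0 ≤ p r) → ∑ r, p r = 1 →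
        ∀ (N : Ω → ℕ) (C : ∀ r, Circuit (Fin m) (N r)) (out : ∀ r, Wire (Fin m) (N r)),
          (∀ r, ((((C r).fanins.map (· + 1)).prod : ℕ) : ℝ) ≤ (m : ℝ) ^ (1 - δ)) →
          (∀ r, (((C r).size + (C r).fanins.sum : ℕ) : ℝ) ≤ 2 ^ ((1 - δ) * n)) →
          ∃ x : Fin m → Bool, ∀ Q : Finset Ω,
            (∀ r ∈ Q, ((out r).eval x ((C r).vals x) = true ↔ ¬ SatList cl x)) →
              ∑ r ∈ Q, p r < 1 / 2 + 1 / (n : ℝ) ^ K := by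
  obtain ⟨D, h⟩ := main_seth δ hδ hδ1 K
  refine ⟨D, ?_⟩
  filter_upwards [h] with n hn
  obtain ⟨m, cl, hnm, hm, hcl, Λ, i1, i2, x, hx⟩ := hn
  refine ⟨m, cl, hnm, hm, hcl, ⟨Λ, i1, i2, x, hx⟩, ?_⟩
  intro Ω _ p hp hp1 N C out h1 h2
  obtain ⟨l, hl⟩ := KS.avg_input p hp hp1
    (fun r l => ((out r).eval (x l) ((C r).vals (x l)) = true ↔ ¬ SatList cl (x l)))
    (1 / 2 + 1 / (n : ℝ) ^ K) (fun r => hx (N r) (C r) (out r) (h1 r) (h2 r))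
  exact ⟨x l, hl⟩

end Pool.Agent.L5helper92.SE
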